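import Pool.Agent.Lib.MP_385b3e_gt.Top4
import Pool.Agent.Lib.MP_385b3e_gt.Top6

set_option autoImplicit false

namespace Pool.Agent.Lib.MP_61a5b3_gt

open Set Metric Filter Topology
open Pool.Agent.Lib.MP_385b3e_gt

variable {K : Type*} [MetricSpace K] [CompactSpace K]

/-- Tree-likeness as in the frozen statement. -/
def TreeLike (K : Type*) [MetricSpace K] : Prop :=
  ∀ ε : ℝ, 0 < ε → ∃ (n : ℕ) (U : Fin n → Set K),
        (∀ i, IsOpen (U i)) ∧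
        (∀ i, Metric.diam (U i) < ε) ∧
        (⋃ i, U i) = Set.univ ∧
        (∀ i j k, i ≠ j → j ≠ k → i ≠ k → U i ∩ U j ∩ U k = ∅) ∧
        (SimpleGraph.fromRel (fun i j : Fin n => (U i ∩ U j).Nonempty)).IsAcyclic

/-- Tree covers by nonempty sets. -/
theorem tree_cover [ConnectedSpace K] (hT : TreeLike K) {ε : ℝ} (hε : 0 < ε) :
    ∃ (V : Type) (_ : Finite V) (U : V → Set K) (G : SimpleGraph V), (∀ i, IsOpen (U i)) ∧
      (∀ i, diam (U i) < ε) ∧ (⋃ i, U i) = univ ∧ G.IsTree ∧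
      (∀ i j, G.Adj i j ↔ i ≠ j ∧ (U i ∩ U j).Nonempty) ∧ ∀ i, (U i).Nonempty := by
  obtain ⟨n, U, h1, h2, h3, -, h5⟩ := hT ε hε
  have hadj : ∀ i j, (SimpleGraph.fromRel (fun i j => (U i ∩ U j).Nonempty)).Adj i j ↔
      i ≠ j ∧ (U i ∩ U j).Nonempty := by
    intro i j
    rw [SimpleGraph.fromRel_adj, inter_comm (U j), or_self]
  let V : Type := {i : Fin n // (U i).Nonempty}
  let U' : V → Set K := fun i => U i.1
  let G : SimpleGraph V := (SimpleGraph.fromRel (fun i j => (U i ∩ U j).Nonempty)).comap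
    (Function.Embedding.subtype _)
  have hG : ∀ i j, G.Adj i j ↔ i ≠ j ∧ (U' i ∩ U' j).Nonempty := by
    intro i j
    have : G.Adj i j ↔ (SimpleGraph.fromRel (fun i j => (U i ∩ U j).Nonempty)).Adj i.1 j.1 :=
      Iff.rfl
    rw [this, hadj]
    exact and_congr_left fun _ => not_congr Subtype.ext_iff.symm
  have hU' : (⋃ i, U' i) = univ := by
    refine eq_univ_of_forall fun x => ?_
    obtain ⟨i, hi⟩ := mem_iUnion.1 (h3 ▸ mem_univ x : x ∈ ⋃ i, U i)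
    exact mem_iUnion.2 ⟨⟨i, x, hi⟩, hi⟩
  have hconn := connIn_meet (G := G) (fun i : V => h1 i.1) hU' hG
    (isPreconnected_univ (α := K))
  obtain ⟨x⟩ := (inferInstance : Nonempty K)
  obtain ⟨i₀, hi₀⟩ := mem_iUnion.1 (hU' ▸ mem_univ x : x ∈ ⋃ i, U' i)
  have hall : ∀ i : V, i ∈ {t | (U' t ∩ univ).Nonempty} := fun i => by
    obtain ⟨y, hy⟩ := i.2
    exact ⟨y, hy, mem_univ y⟩
  refine ⟨V, inferInstance, U', G, fun i => h1 i.1, fun i => h2 i.1, hU', ?_, hG, fun i => i.2⟩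
  haveI : Nonempty V := ⟨i₀⟩
  refine ⟨⟨fun u v => ?_⟩, h5.of_comap _⟩
  obtain ⟨p, -⟩ := hconn u (hall u) v (hall v)
  exact ⟨p⟩

/-- Gate lemma. -/
theorem gate [ConnectedSpace K] (hT : TreeLike K) {J₁ J₂ : Set K} (h₁ : IsClosed J₁)
    (h₁c : IsConnected J₁) (h₂ : IsClosed J₂) (h₂c : IsConnected J₂) (hd : Disjoint J₁ J₂)
    {ε : ℝ} (hε : 0 < ε) : ∃ g : K → ℝ, Continuous g ∧ (∀ x, 0 ≤ g x ∧ g x ≤ 1) ∧
      (∀ x ∈ J₁, g x = 0) ∧ (∀ x ∈ J₂, g x = 1) ∧ diam {x | 0 < g x ∧ g x < 1} < ε := by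
  classical
  obtain ⟨η, hη, hdis⟩ := hd.exists_thickenings h₁.isCompact h₂
  obtain ⟨V, _, U, G, u1, u2, u3, hG, hadj, hne⟩ := tree_cover hT (lt_min hε hη)
  have hS := connIn_meet u1 u3 hadj h₁c.2
  have hS₂ := connIn_meet u1 u3 hadj h₂c.2
  have hmeet : ∀ i, (U i ∩ J₁).Nonempty → ¬ (U i ∩ J₂).Nonempty := by
    rintro i ⟨x, hx, hx1⟩ ⟨y, hy, hy2⟩
    have h : y ∈ thickening η J₁ := by
      refine mem_thickening_iff.2 ⟨x, hx1, ?_⟩
      exact (dist_le_diam hy hx).trans_lt ((u2 i).trans_le (min_le_right _ _))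
    exact Set.disjoint_left.1 hdis h (self_subset_thickening hη _ hy2)
  obtain ⟨x₁, hx₁⟩ := h₁c.1
  obtain ⟨i₁, hi₁⟩ := mem_iUnion.1 (u3 ▸ mem_univ x₁ : x₁ ∈ ⋃ i, U i)
  obtain ⟨x₂, hx₂⟩ := h₂c.1
  obtain ⟨i₂, hi₂⟩ := mem_iUnion.1 (u3 ▸ mem_univ x₂ : x₂ ∈ ⋃ i, U i)
  obtain ⟨π, hπS, hπ1, hπ2, hπ3⟩ := exists_retraction hG {t | (U t ∩ J₁).Nonempty}
    ⟨i₁, x₁, hi₁, hx₁⟩ hS
  set S : Set V := {t | (U t ∩ J₁).Nonempty} with hSdef
  have hi₂S : i₂ ∉ S := fun h => hmeet i₂ h ⟨x₂, hi₂, hx₂⟩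
  -- the second side
  let B : Set V := {v | v ∉ S ∧ π v = π i₂}
  have hB₂ : ∀ v, (U v ∩ J₂).Nonempty → v ∈ B := by
    intro v hv
    have hvS : v ∉ S := fun h => hmeet v h hv
    refine ⟨hvS, ?_⟩
    obtain ⟨p, hp⟩ := hS₂ v hv i₂ ⟨x₂, hi₂, hx₂⟩
    exact pi_const hπ2 p fun y hy h => hmeet y h (hp y hy)
  let P : Set K := ⋃ v ∈ Bᶜ, U v
  let Q : Set K := ⋃ v ∈ B, U v
  have hP : IsOpen P := isOpen_biUnion fun v _ => u1 v
  have hQ : IsOpen Q := isOpen_biUnion fun v _ => u1 v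
  have hPQ : P ∩ Q ⊆ U (π i₂) := by
    rintro x ⟨hxP, hxQ⟩
    obtain ⟨v, hv, hxv⟩ := mem_iUnion₂.1 hxP
    obtain ⟨w, hw, hxw⟩ := mem_iUnion₂.1 hxQ
    have hvw : G.Adj v w := (hadj v w).2 ⟨fun h => hv (h ▸ hw), x, hxv, hxw⟩
    have h1 : π v = π w := by
      rcases hπ2 v w hvw with h | h
      · exact h
      · exact absurd h.2 hw.1
    have hvS : v ∈ S := by
      by_contra hvS
      exact hv ⟨hvS, h1.trans hw.2⟩
    have h2 : v = π i₂ := by rw [← hπ1 v hvS, h1, hw.2]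
    exact h2 ▸ hxv
  have hcover : P ∪ Q = univ := by
    refine eq_univ_of_forall fun x => ?_
    obtain ⟨v, hv⟩ := mem_iUnion.1 (u3 ▸ mem_univ x : x ∈ ⋃ i, U i)
    by_cases h : v ∈ B
    · exact Or.inr (mem_biUnion h hv)
    · exact Or.inl (mem_biUnion (show v ∈ Bᶜ from h) hv)
  have hJ₁Q : ∀ x ∈ J₁, x ∉ Q := by
    intro x hx hxQ
    obtain ⟨w, hw, hxw⟩ := mem_iUnion₂.1 hxQ
    exact hw.1 ⟨x, hxw, hx⟩
  have hJ₂P : ∀ x ∈ J₂, x ∉ P := by
    intro x hx hxP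
    obtain ⟨w, hw, hxw⟩ := mem_iUnion₂.1 hxP
    exact hw (hB₂ w ⟨x, hxw, hx⟩)
  have hdPQ : Disjoint Qᶜ Pᶜ := by
    rw [Set.disjoint_left]
    intro x hxQ hxP
    rcases (hcover ▸ mem_univ x : x ∈ P ∪ Q) with h | h
    · exact hxP h
    · exact hxQ h
  obtain ⟨g, hg0, hg1, hg⟩ := exists_continuous_zero_one_of_isClosed hQ.isClosed_compl
    hP.isClosed_compl hdPQ
  refine ⟨g, g.continuous, fun x => hg x, fun x hx => hg0 (hJ₁Q x hx), fun x hx =>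
    hg1 (hJ₂P x hx), ?_⟩
  refine (diam_mono' (fun x hx => hPQ ⟨?_, ?_⟩)).trans_lt ((u2 _).trans_le (min_le_left _ _))
  · by_contra h
    have : g x = 1 := hg1 h
    exact absurd hx.2 (by rw [this]; exact lt_irrefl 1)
  · by_contra h
    have : g x = 0 := hg0 h
    exact absurd hx.1 (by rw [this]; exact lt_irrefl 0)

/-- A connected set on which `g` takes the values `0` and `1` meets the gate. -/
theorem meets_gate {g : K → ℝ} (hg : Continuous g) {S : Set K} (hS : IsPreconnected S) {x y : K}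
    (hx : x ∈ S) (hy : y ∈ S) {c : ℝ} (h0 : g x ≤ c) (h1 : c ≤ g y) : ∃ z ∈ S, g z = c := by
  obtain ⟨z, hz, hzc⟩ := hS.intermediate_value hx hy hg.continuousOn ⟨h0, h1⟩
  exact ⟨z, hz, hzc⟩

/-- A subcontinuum containing both endpoints of an arc contains the arc. -/
theorem arc_sub [ConnectedSpace K] (hT : TreeLike K) {γ : ℝ → K} (hγ : Continuous γ) {s t : ℝ}
    (hinj : InjOn γ (Icc s t)) {L : Set K} (hL : IsClosed L) (hLc : IsPreconnected L)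
    (hs : γ s ∈ L) (ht : γ t ∈ L) {c : ℝ} (hc : c ∈ Icc s t) : γ c ∈ L := by
  by_contra hcL
  have hsc : s < c := lt_of_le_of_ne hc.1 fun h => hcL (h ▸ hs)
  have hct : c < t := lt_of_le_of_ne hc.2 fun h => hcL (h ▸ ht)
  obtain ⟨ρ, hρ, hball⟩ := Metric.isOpen_iff.1 hL.isOpen_compl (γ c) hcL
  obtain ⟨η', hη', hη'2⟩ := Metric.continuousAt_iff.1 hγ.continuousAt (ρ / 2) (half_pos hρ)
  obtain ⟨η, hη, hη1, hη2, hη3⟩ : ∃ η > 0, η < η' ∧ s ≤ c - η ∧ c + η ≤ t := by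
    refine ⟨min (η' / 2) (min (c - s) (t - c)), ?_, ?_, ?_, ?_⟩
    · exact lt_min (half_pos hη') (lt_min (sub_pos.2 hsc) (sub_pos.2 hct))
    · exact (min_le_left _ _).trans_lt (half_lt_self hη')
    · have := (min_le_right (η' / 2) (min (c - s) (t - c))).trans (min_le_left _ _)
      linarith
    · have := (min_le_right (η' / 2) (min (c - s) (t - c))).trans (min_le_right _ _)
      linarith
  have hJ₁ : IsConnected (γ '' Icc s (c - η)) :=
    (isConnected_Icc hη2).image _ hγ.continuousOn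
  have hJ₂ : IsConnected (γ '' Icc (c + η) t) :=
    (isConnected_Icc hη3).image _ hγ.continuousOn
  have hd : Disjoint (γ '' Icc s (c - η)) (γ '' Icc (c + η) t) := by
    rw [Set.disjoint_left]
    rintro _ ⟨a, ha, rfl⟩ ⟨b, hb, hab⟩
    have h1 := ha.1
    have h2 := ha.2
    have h3 := hb.1
    have h4 := hb.2
    have := hinj (show b ∈ Icc s t from ⟨by linarith, h4⟩) (show a ∈ Icc s t from ⟨h1, by linarith⟩) hab
    linarith
  obtain ⟨g, hg, hg01, hg0, hg1, hdiam⟩ := gate hT (isCompact_Icc.image hγ).isClosed hJ₁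
    (isCompact_Icc.image hγ).isClosed hJ₂ hd (half_pos hρ)
  have e0 : g (γ s) = 0 := hg0 _ ⟨s, ⟨le_rfl, hη2⟩, rfl⟩
  have e1 : g (γ t) = 1 := hg1 _ ⟨t, ⟨hη3, le_rfl⟩, rfl⟩
  have e2 : g (γ (c - η)) = 0 := hg0 _ ⟨_, ⟨hη2, le_rfl⟩, rfl⟩
  have e3 : g (γ (c + η)) = 1 := hg1 _ ⟨_, ⟨le_rfl, hη3⟩, rfl⟩
  obtain ⟨z, hz, hzg⟩ := meets_gate hg hLc hs ht (c := 1 / 2) (by rw [e0]; norm_num)
    (by rw [e1]; norm_num)
  obtain ⟨z', ⟨a, ha, rfl⟩, hzg'⟩ := meets_gate hg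
    (isPreconnected_Icc.image γ hγ.continuousOn : IsPreconnected (γ '' Icc (c - η) (c + η)))
    ⟨c - η, ⟨le_rfl, by linarith⟩, rfl⟩ ⟨c + η, ⟨by linarith, le_rfl⟩, rfl⟩ (c := 1 / 2)
    (by rw [e2]; norm_num) (by rw [e3]; norm_num)
  have h1 : dist z (γ a) < ρ / 2 := (dist_le_diam (s := {x | 0 < g x ∧ g x < 1})
    (by rw [mem_ofPred_eq, hzg]; norm_num) (by rw [mem_ofPred_eq, hzg']; norm_num)).trans_lt hdiam
  have h2 : dist (γ a) (γ c) < ρ / 2 := by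
    refine hη'2 ?_
    rw [Real.dist_eq, abs_lt]
    exact ⟨by linarith [ha.1], by linarith [ha.2]⟩
  have h3 : z ∈ ball (γ c) ρ := by
    rw [mem_ball]
    linarith [dist_triangle z (γ a) (γ c)]
  exact hball h3 hz

theorem dc_of_preconnected {Z : Set K} (hZ : IsPreconnected Z) {δ : ℝ} (hδ : 0 < δ) :
    DC δ Z := by
  intro S hS hSne hSc
  obtain ⟨z, -, h1, h2⟩ := hZ (thickening (δ / 2) S) (thickening (δ / 2) (Z \ S))
    isOpen_thickening isOpen_thickening (fun x hx => by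
      by_cases h : x ∈ S
      · exact Or.inl (self_subset_thickening (half_pos hδ) _ h)
      · exact Or.inr (self_subset_thickening (half_pos hδ) _ ⟨hx, h⟩)) (by
      obtain ⟨x, hx⟩ := hSne
      exact ⟨x, hS hx, self_subset_thickening (half_pos hδ) _ hx⟩) (by
      obtain ⟨x, hx⟩ := hSc
      exact ⟨x, hx.1, self_subset_thickening (half_pos hδ) _ hx⟩)
  obtain ⟨s, hs, hzs⟩ := mem_thickening_iff.1 h1
  obtain ⟨t, ht, hzt⟩ := mem_thickening_iff.1 h2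
  refine ⟨s, hs, t, ht, ?_⟩
  have := dist_triangle s z t
  rw [dist_comm s z] at this
  linarith

theorem ulim_preconnected {F : Ultrafilter ℕ} (hF : (F : Filter ℕ) ≤ atTop) {Z : ℕ → Set K}
    (hZ : ∀ n, IsPreconnected (Z n)) : IsPreconnected (ULim F Z) := by
  have hlim : Tendsto (fun k : ℕ => (1 : ℝ) / (k + 1)) F (𝓝 0) :=
    tendsto_one_div_add_atTop_nhds_zero_nat.mono_left hF
  exact ULim.preconnected hlim fun k => dc_of_preconnected (hZ k) (by positivity)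

theorem ulim_const_subset {F : Ultrafilter ℕ} {S : Set K} (hS : IsClosed S) :
    ULim F (fun _ => S) ⊆ S := by
  intro x hx
  rw [← hS.closure_eq, Metric.mem_closure_iff]
  intro r hr
  obtain ⟨k, z, hz1, hz2⟩ := (hx r hr).exists
  exact ⟨z, hz2, by rw [dist_comm]; exact hz1⟩

theorem mem_ulim_of_tendsto {F : Ultrafilter ℕ} {Z : ℕ → Set K} {z : ℕ → K} {x : K}
    (hz : ∀ n, z n ∈ Z n) (hx : Tendsto z F (𝓝 x)) : x ∈ ULim F Z := by
  intro r hr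
  filter_upwards [hx (ball_mem_nhds x hr)] with n hn
  exact ⟨z n, hn, hz n⟩

end Pool.Agent.Lib.MP_61a5b3_gt
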