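import Pool.Agent.Lib.MP_61a5b3_gt.Sys

set_option autoImplicit false

namespace Pool.Agent.Lib.MP_61a5b3_gt

open Set Metric Filter Topology
open Pool.Agent.Lib.MP_385b3e_gt

variable {K : Type*} [MetricSpace K] [CompactSpace K] [ConnectedSpace K]

/-- Gate data. -/
structure Gate (f : K → K) (γ : K → ℝ → K) (δ : ℝ) (Z : Set K) (ε : ℝ) (g β : K → ℝ) : Prop where
  gcont : Continuous g
  bcont : Continuous β
  g01 : ∀ x, 0 ≤ g x ∧ g x ≤ 1
  dia : diam {x | 0 < g x ∧ g x < 1} < ε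
  fs : ∀ x ∈ Z, 0 < g x → g x < 1 → x ∈ FS γ δ ε
  hε : ε ≤ δ
  int1 : ∀ x, ¬ (0 < g x ∧ g x < 1 ∧ g (f x) = 0) → ∃ n : ℤ, β x - g x = n
  int2 : ∀ x, (0 < g x ∧ g x < 1 ∧ g (f x) = 0) → ∃ n : ℤ, β x = n

variable {f : K → K} {γ : K → ℝ → K} {δ : ℝ} {Z : Set K} {ε : ℝ} {g β : K → ℝ}

/-- Integer valued continuous functions are constant on connected sets. -/
theorem const_of_int {S : Set K} (hS : IsPreconnected S) {h : K → ℝ} (hc : Continuous h)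
    (hint : ∀ x ∈ S, ∃ n : ℤ, h x = n) {x y : K} (hx : x ∈ S) (hy : y ∈ S) : h x = h y := by
  have key : ∀ x ∈ S, ∀ y ∈ S, ¬ h x < h y := by
    intro x hx y hy hlt
    obtain ⟨n, hn⟩ := hint x hx
    obtain ⟨m, hm⟩ := hint y hy
    have h1 : n < m := by
      rw [hn, hm] at hlt
      exact_mod_cast hlt
    have h2 : n + 1 ≤ m := h1
    have h2' : (n : ℝ) + 1 ≤ m := by exact_mod_cast h2
    obtain ⟨z, hz, hzc⟩ := hS.intermediate_value hx hy hc.continuousOn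
      (show (n : ℝ) + 1 / 2 ∈ Icc (h x) (h y) from ⟨by rw [hn]; linarith, by rw [hm]; linarith⟩)
    obtain ⟨k, hk⟩ := hint z hz
    rw [hk] at hzc
    have h3 : (2 * k : ℝ) = 2 * n + 1 := by linarith
    have h4 : 2 * k = 2 * n + 1 := by exact_mod_cast h3
    omega
  exact le_antisymm (not_lt.1 (key y hy x hx)) (not_lt.1 (key x hx y hy))

namespace Gate

theorem g_const (G : Gate f γ δ Z ε g β) {S : Set K} (hS : IsPreconnected S)
    (hV : ∀ x ∈ S, ¬ (0 < g x ∧ g x < 1)) {x y : K} (hx : x ∈ S) (hy : y ∈ S) : g x = g y := by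
  refine const_of_int hS G.gcont (fun x hx => ?_) hx hy
  have h1 := G.g01 x
  have h2 := hV x hx
  rcases eq_or_lt_of_le h1.1 with h | h
  · exact ⟨0, by rw [← h]; simp⟩
  · rcases eq_or_lt_of_le h1.2 with h' | h'
    · exact ⟨1, by rw [h']; simp⟩
    · exact absurd ⟨h, h'⟩ h2

theorem b_const (G : Gate f γ δ Z ε g β) {S : Set K} (hS : IsPreconnected S)
    (hV : ∀ x ∈ S, ¬ (0 < g x ∧ g x < 1 ∧ g (f x) = 0)) {x y : K} (hx : x ∈ S) (hy : y ∈ S) :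
    β x - g x = β y - g y :=
  const_of_int hS (G.bcont.sub G.gcont) (fun x hx => G.int1 x (hV x hx)) hx hy

theorem sign (G : Gate f γ δ Z ε g β) (S : Sys f γ δ) {x : K} (h0 : 0 < g x) (h1 : g x < 1) :
    g (f x) = 0 ∨ g (f x) = 1 := by
  have hg := G.g01 (f x)
  rcases eq_or_lt_of_le hg.1 with h | h
  · exact Or.inl h.symm
  · rcases eq_or_lt_of_le hg.2 with h' | h'
    · exact Or.inr h'
    · exfalso
      have h2 : dist x (f x) ≤ diam {x | 0 < g x ∧ g x < 1} :=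
        dist_le_diam (s := {x | 0 < g x ∧ g x < 1}) ⟨h0, h1⟩ ⟨h, h'⟩
      have h3 := S.far x
      have h4 := G.dia
      have h5 := G.hε
      have h6 := S.pos
      linarith

/-- The situation at a point of the middle section. -/
structure Mid (f : K → K) (Z : Set K) (g : K → ℝ) (u : K) : Prop where
  mem : u ∈ Z
  h0 : 0 < g u
  h1 : g u < 1
  hf : g (f u) = 1

theorem mid_of_level (G : Gate f γ δ Z ε g β) (S : Sys f γ δ) {c : ℝ}
    (hc : ∃ n : ℤ, c = n + 1 / 2) {u : K} (hu : u ∈ Z) (hβ : β u = c) :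
    Mid f Z g u ∧ g u = 1 / 2 := by
  obtain ⟨n, hn⟩ := hc
  have h1 : ¬ (0 < g u ∧ g u < 1 ∧ g (f u) = 0) := by
    intro h
    obtain ⟨m, hm⟩ := G.int2 u h
    rw [hβ, hn] at hm
    have h3 : (2 * m : ℝ) = 2 * n + 1 := by linarith
    have h4 : 2 * m = 2 * n + 1 := by exact_mod_cast h3
    omega
  obtain ⟨m, hm⟩ := G.int1 u h1
  have hg := G.g01 u
  have h2 : g u = 1 / 2 := by
    have h3 : g u = ((n - m : ℤ) : ℝ) + 1 / 2 := by
      push_cast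
      rw [hβ, hn] at hm
      linarith
    have h4 : ((n - m : ℤ) : ℝ) < 1 := by linarith
    have h5 : (-1 : ℝ) < ((n - m : ℤ) : ℝ) := by linarith
    have h6 : n - m < 1 := by exact_mod_cast h4
    have h7 : -1 < n - m := by exact_mod_cast h5
    have h8 : n - m = 0 := by omega
    rw [h3, h8]
    simp
  have h0 : 0 < g u := by rw [h2]; norm_num
  have h1' : g u < 1 := by rw [h2]; norm_num
  refine ⟨⟨hu, h0, h1', ?_⟩, h2⟩
  rcases G.sign S h0 h1' with h | h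
  · exact absurd ⟨h0, h1', h⟩ h1
  · exact h

theorem mid_near (G : Gate f γ δ Z ε g β) (S : Sys f γ δ) {u : K} (hu : Mid f Z g u) {t : ℝ}
    (ht : In γ (2 * δ) u t) : g (f (γ u t)) = 1 := by
  rw [← hu.hf]
  refine G.g_const (S.conn_fimg u 0 t) ?_ ⟨_, ⟨t, ⟨ht.1.1, le_rfl⟩, rfl⟩, rfl⟩
    ⟨u, ⟨0, ⟨le_rfl, ht.1.1⟩, S.g0 u⟩, rfl⟩
  rintro _ ⟨_, ⟨r, hr, rfl⟩, rfl⟩ hV
  have h1 : dist u (f (γ u r)) ≤ diam {x | 0 < g x ∧ g x < 1} :=
    dist_le_diam (s := {x | 0 < g x ∧ g x < 1}) ⟨hu.h0, hu.h1⟩ hV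
  have h2 := ht.2 r hr
  have h3 := G.dia
  have h4 := G.hε
  have h5 := S.pos
  exact S.sep u (γ u r) _ (by linarith) (by linarith) rfl

theorem mid_far (G : Gate f γ δ Z ε g β) (S : Sys f γ δ) {u : K} (hu : Mid f Z g u) {t : ℝ}
    (ht01 : t ∈ Icc (0 : ℝ) 1) (ht : ¬ In γ (2 * δ) u t) : g (γ u t) = 1 := by
  rw [← hu.hf, ← S.g1]
  refine G.g_const (S.conn_img u t 1) ?_ ⟨t, ⟨le_rfl, ht01.2⟩, rfl⟩ ⟨1, ⟨ht01.2, le_rfl⟩, rfl⟩
  rintro _ ⟨r, hr, rfl⟩ hV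
  have hs : ∃ s ∈ Icc 0 t, 2 * δ < dist u (γ u s) := by
    by_contra hcon
    push Not at hcon
    exact ht ⟨ht01, hcon⟩
  obtain ⟨s, hs, hsd⟩ := hs
  have h5 := S.pos
  have h1 := G.fs u hu.mem hu.h0 hu.h1 s ⟨hs.1, hs.2.trans ht01.2⟩ r
    ⟨ht01.1.trans hr.1, hr.2⟩ (hs.2.trans hr.1) (by linarith)
  have h2 : dist u (γ u r) ≤ diam {x | 0 < g x ∧ g x < 1} :=
    dist_le_diam (s := {x | 0 < g x ∧ g x < 1}) ⟨hu.h0, hu.h1⟩ hV
  have h3 := G.dia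
  linarith

theorem mid_const (G : Gate f γ δ Z ε g β) (S : Sys f γ δ) {u : K} (hu : Mid f Z g u) {t : ℝ}
    (ht01 : t ∈ Icc (0 : ℝ) 1) : β (γ u t) - g (γ u t) = β u - g u := by
  refine G.b_const (S.conn_img u 0 t) ?_ ⟨t, ⟨ht01.1, le_rfl⟩, rfl⟩ ⟨0, ⟨le_rfl, ht01.1⟩, S.g0 u⟩
  rintro _ ⟨r, hr, rfl⟩ ⟨h1, h2, h3⟩
  by_cases h : In γ (2 * δ) u r
  · rw [G.mid_near S hu h] at h3
    exact one_ne_zero h3
  · rw [G.mid_far S hu ⟨hr.1, hr.2.trans ht01.2⟩ h] at h2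
    exact lt_irrefl _ h2

end Gate

/-- The pieces of arcs near the middle section. -/
def CC (γ : K → ℝ → K) (δ : ℝ) (Z : Set K) (β : K → ℝ) (c : ℝ) : Set K :=
  {x | ∃ u ∈ Z, β u = c ∧ ∃ t, In γ (2 * δ) u t ∧ x = γ u t}

theorem cc_sub (S : Sys f γ δ) (hZs : Sat γ δ Z) {c : ℝ} : CC γ δ Z β c ⊆ Z := by
  rintro _ ⟨u, hu, -, t, ht, rfl⟩
  exact hZs u hu t (ht.mono (by have := S.pos; linarith))

theorem cc_level (G : Gate f γ δ Z ε g β) (S : Sys f γ δ) {c : ℝ} (hc : ∃ n : ℤ, c = n + 1 / 2)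
    {x : K} (hx : x ∈ closure (CC γ δ Z β c)) : β x - g x = c - 1 / 2 := by
  have hcl : IsClosed {x | β x - g x = c - 1 / 2} :=
    isClosed_eq (G.bcont.sub G.gcont) continuous_const
  refine closure_minimal ?_ hcl hx
  rintro _ ⟨u, hu, hβ, t, ht, rfl⟩
  obtain ⟨hm, hg⟩ := G.mid_of_level S hc hu hβ
  have := G.mid_const S hm ht.1
  rw [hβ, hg] at this
  exact this

/-- Moving along an initial arc from the upper level. -/
theorem case1 (G : Gate f γ δ Z ε g β) (S : Sys f γ δ) (hZs : Sat γ δ Z) {c : ℝ}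
    (hc : ∃ n : ℤ, c = n + 1 / 2) {y : K} (hy : y ∈ Z) {t s₀ : ℝ} (ht : In γ (100 * δ) y t)
    (hs₀ : s₀ ∈ Icc 0 t) (h0 : c ≤ β (γ y s₀)) :
    c ≤ β (γ y t) ∨ γ y t ∈ CC γ δ Z β c := by
  by_cases hct : c ≤ β (γ y t)
  · exact Or.inl hct
  right
  rw [not_le] at hct
  have hcont : Continuous fun r => β (γ y r) := G.bcont.comp (S.gc y)
  have hT : IsCompact {r | r ∈ Icc s₀ t ∧ c ≤ β (γ y r)} :=
    isCompact_Icc.inter_right (isClosed_le continuous_const hcont)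
  obtain ⟨s, ⟨hs, hsc⟩, hmax⟩ := hT.exists_isGreatest ⟨s₀, ⟨le_rfl, hs₀.2⟩, h0⟩
  obtain ⟨r, hr, hrc⟩ := intermediate_value_Icc' hs.2 hcont.continuousOn
    (show c ∈ Icc (β (γ y t)) (β (γ y s)) from ⟨hct.le, hsc⟩)
  have hrc' : β (γ y r) = c := hrc
  have hrs : r = s := le_antisymm (hmax ⟨⟨hs.1.trans hr.1, hr.2⟩, hrc'.ge⟩) hr.1
  rw [hrs] at hrc'
  have hp := S.pos
  have hs0t : s ∈ Icc 0 t := ⟨hs₀.1.trans hs.1, hs.2⟩
  have hIs : In γ (100 * δ) y s := ht.mono_t hs0t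
  have hu : γ y s ∈ Z := hZs y hy s hIs
  obtain ⟨t', ht', htt, hin⟩ := S.key_in (hIs.mono (by linarith)) hs.2 ht.1.2 (fun r hr => by
    have := ht.2 r ⟨hs0t.1.trans hr.1, hr.2⟩
    linarith)
  refine ⟨γ y s, hu, hrc', t', ?_, htt.symm⟩
  by_contra hcon
  have : ∃ r ∈ Icc 0 t', 2 * δ < dist (γ y s) (γ (γ y s) r) := by
    by_contra hcon'
    push Not at hcon'
    exact hcon ⟨ht', hcon'⟩
  obtain ⟨r, hr, hrd⟩ := this
  have hr01 : r ∈ Icc (0 : ℝ) 1 := ⟨hr.1, hr.2.trans ht'.2⟩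
  obtain ⟨hm, hg⟩ := G.mid_of_level S hc hu hrc'
  have h1 : g (γ (γ y s) r) = 1 := G.mid_far S hm hr01 (fun h =>
    absurd (h.2 r ⟨hr.1, le_rfl⟩) (not_le.2 hrd))
  have h2 := G.mid_const S hm hr01
  rw [h1, hg, hrc'] at h2
  obtain ⟨r', hr', hr'eq⟩ := hin r hr
  have h3 : c ≤ β (γ y r') := by
    rw [hr'eq]
    linarith
  have h4 : r' ≤ s := hmax ⟨⟨hs.1.trans hr'.1, hr'.2⟩, h3⟩
  have h5 : r' = s := le_antisymm h4 hr'.1
  rw [h5] at hr'eq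
  rw [← hr'eq] at h2
  linarith

/-- Points of the closure below the level. -/
theorem case2 (G : Gate f γ δ Z ε g β) (S : Sys f γ δ) {c : ℝ}
    (hc : ∃ n : ℤ, c = n + 1 / 2) {y : K} (hy : y ∈ closure (CC γ δ Z β c)) (hyc : β y < c) :
    ∃ s, In γ (4 * δ) y s ∧ β (γ y s) = c ∧ ∀ r ∈ Icc 0 s, γ y r ∈ closure (CC γ δ Z β c) := by
  have hp := S.pos
  have hy' : y ∈ closure (CC γ δ Z β c ∩ {x | β x < c}) := by
    rw [_root_.mem_closure_iff] at hy ⊢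
    intro O hO hyO
    have hO' : IsOpen (O ∩ {x | β x < c}) := hO.inter (isOpen_lt G.bcont continuous_const)
    obtain ⟨z, ⟨hz1, hz2⟩, hz3⟩ := hy _ hO' ⟨hyO, hyc⟩
    exact ⟨z, hz1, hz3, hz2⟩
  obtain ⟨yn, hyn, hlim⟩ := mem_closure_iff_seq_limit.1 hy'
  have hex : ∀ n, ∃ u ∈ Z, β u = c ∧ ∃ t, In γ (2 * δ) u t ∧ yn n = γ u t := fun n => (hyn n).1
  choose u hu hβu t ht hyt using hex
  have hmid : ∀ n, Gate.Mid f Z g (u n) ∧ g (u n) = 1 / 2 := fun n =>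
    G.mid_of_level S hc (hu n) (hβu n)
  have hlev : ∀ n, ∀ r ∈ Icc (0 : ℝ) 1, β (γ (u n) r) - g (γ (u n) r) = c - 1 / 2 := by
    intro n r hr
    have := G.mid_const S (hmid n).1 hr
    rw [hβu n, (hmid n).2] at this
    exact this
  have hgt : ∀ n, g (γ (u n) (t n)) < 1 / 2 := by
    intro n
    have h1 := hlev n (t n) (ht n).1
    have h2 : β (yn n) < c := (hyn n).2
    rw [hyt n] at h2
    linarith
  -- the last passage of the middle level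
  have hs : ∀ n, ∃ s, t n ≤ s ∧ In γ (2 * δ) (u n) s ∧ ∀ r ∈ Icc s 1, 1 / 2 ≤ g (γ (u n) r) := by
    intro n
    have hcont : Continuous fun r => g (γ (u n) r) := G.gcont.comp (S.gc _)
    have hT : IsCompact {r | r ∈ Icc (t n) 1 ∧ g (γ (u n) r) ≤ 1 / 2} :=
      isCompact_Icc.inter_right (isClosed_le hcont continuous_const)
    obtain ⟨s, ⟨hs, hsc⟩, hmax⟩ := hT.exists_isGreatest
      ⟨t n, ⟨le_rfl, (ht n).1.2⟩, (hgt n).le⟩
    have hs01 : s ∈ Icc (0 : ℝ) 1 := ⟨(ht n).1.1.trans hs.1, hs.2⟩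
    refine ⟨s, hs.1, ?_, fun r hr => ?_⟩
    · by_contra hcon
      have := G.mid_far S (hmid n).1 hs01 hcon
      rw [this] at hsc
      norm_num at hsc
    · by_contra hcon
      rw [not_le] at hcon
      obtain ⟨r', hr', hr'c⟩ := intermediate_value_Icc hr.2 hcont.continuousOn
        (show (1 / 2 : ℝ) ∈ Icc (g (γ (u n) r)) (g (γ (u n) 1)) from
          ⟨hcon.le, by rw [S.g1, (hmid n).1.hf]; norm_num⟩)
      have hr'c' : g (γ (u n) r') = 1 / 2 := hr'c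
      have h1 : r' ≤ s := hmax ⟨⟨hs.1.trans (hr.1.trans hr'.1), hr'.2⟩, hr'c'.le⟩
      have h2 : r' = r := le_antisymm (h1.trans hr.1) hr'.1
      rw [h2] at hr'c'
      linarith
  choose s hts hs hsg using hs
  let F : Ultrafilter ℕ := hyperfilter ℕ
  have hF : (F : Filter ℕ) ≤ atTop := Nat.hyperfilter_le_atTop
  have hyF : Tendsto yn F (𝓝 y) := hlim.mono_left hF
  let Zn : ℕ → Set K := fun n => γ (u n) '' Icc (t n) (s n)
  have hZn_sub : ∀ n, Zn n ⊆ closure (CC γ δ Z β c) := by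
    rintro n _ ⟨r, hr, rfl⟩
    exact subset_closure ⟨u n, hu n, hβu n, r, (hs n).mono_t ⟨(ht n).1.1.trans hr.1, hr.2⟩, rfl⟩
  have hU_sub : ULim F Zn ⊆ closure (CC γ δ Z β c) :=
    (ULim.mono hZn_sub).trans (ulim_const_subset isClosed_closure)
  have hU_near : ∀ x ∈ ULim F Zn, dist y x ≤ 4 * δ := by
    intro x hx
    refine le_of_forall_pos_le_add fun r hr => ?_
    obtain ⟨n, h1, z, hz, a, ha, rfl⟩ := ((hyF.eventually (ball_mem_nhds _ (half_pos hr))).and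
      (hx (r / 2) (half_pos hr))).exists
    have h1' : dist (yn n) y < r / 2 := h1
    rw [mem_ball] at hz
    have h2 := (hs n).2 a ⟨(ht n).1.1.trans ha.1, ha.2⟩
    have h3 := (ht n).2 (t n) ⟨(ht n).1.1, le_rfl⟩
    rw [← hyt n] at h3
    have h4 := dist_triangle4 y (yn n) (u n) (γ (u n) a)
    have h5 := dist_triangle y (γ (u n) a) x
    rw [dist_comm y (yn n), dist_comm (yn n) (u n)] at h4
    linarith
  -- the arcs from `yn n`
  have hA : ∀ n, γ (yn n) '' Icc 0 1 ⊆ Zn n ∪ {x | 1 / 2 ≤ g x} := by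
    rintro n _ ⟨r, hr, rfl⟩
    have hL : IsPreconnected (γ (u n) '' Icc (t n) 1 ∪ f '' (γ (u n) '' Icc 0 (t n))) := by
      refine IsPreconnected.union (f (u n)) ?_ ?_ (S.conn_img _ _ _) (S.conn_fimg _ _ _)
      · exact ⟨1, ⟨(ht n).1.2, le_rfl⟩, S.g1 _⟩
      · exact ⟨u n, ⟨0, ⟨le_rfl, (ht n).1.1⟩, S.g0 _⟩, rfl⟩
    have h := S.sub (y := yn n) (le_refl 0) (le_refl 1)
      ((S.closed_img _ _ _).union (S.closed_fimg _ _ _)) hL
      (Or.inl ⟨t n, ⟨le_rfl, (ht n).1.2⟩, by rw [S.g0, hyt n]⟩)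
      (Or.inr ⟨yn n, ⟨t n, ⟨(ht n).1.1, le_rfl⟩, (hyt n).symm⟩, (S.g1 _).symm⟩) hr
    rcases h with ⟨a, ha, hae⟩ | ⟨_, ⟨a, ha, rfl⟩, hae⟩
    · rw [← hae]
      rcases le_total a (s n) with h | h
      · exact Or.inl ⟨a, ⟨ha.1, h⟩, rfl⟩
      · exact Or.inr (hsg n a ⟨h, ha.2⟩)
    · rw [← hae]
      right
      rw [mem_ofPred_eq, G.mid_near S (hmid n).1 ((ht n).mono_t ha)]
      norm_num
  have hlscU : ∀ r ∈ Icc (0 : ℝ) 1, g (γ y r) < 1 / 2 → γ y r ∈ ULim F Zn := by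
    intro r hr hgr
    have h1 : γ y r ∈ ULim F (fun n => γ (yn n) '' Icc 0 1) := by
      refine S.lsc hF hyF (t := fun _ => 1) (fun n => ⟨zero_le_one, le_rfl⟩) (t₀ := 1)
        ⟨zero_le_one, le_rfl⟩ ?_ hr
      simp only [S.g1]
      exact (S.fc.tendsto y).comp hyF
    rcases ULim.union_subset (Z₁ := Zn) (Z₂ := fun _ => {x | 1 / 2 ≤ g x}) hA h1 with h | h
    · exact h
    · have := ulim_const_subset (isClosed_le continuous_const G.gcont) h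
      exact absurd hgr (not_lt.2 this)
  have hgy : g y < 1 / 2 := by
    have := cc_level G S hc hy
    linarith
  have hgfy : g (f y) = 1 := by
    have h1 : Tendsto (fun n => g (f (yn n))) atTop (𝓝 (g (f y))) :=
      ((G.gcont.comp S.fc).tendsto y).comp hlim
    have h2 : (fun n => g (f (yn n))) = fun _ => (1 : ℝ) := by
      funext n
      rw [hyt n]
      exact G.mid_near S (hmid n).1 (ht n)
    rw [h2] at h1
    exact (tendsto_nhds_unique h1 tendsto_const_nhds)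
  -- the first passage
  have hcont : Continuous fun r => g (γ y r) := G.gcont.comp (S.gc _)
  have hT : IsCompact {r | r ∈ Icc (0 : ℝ) 1 ∧ 1 / 2 ≤ g (γ y r)} :=
    isCompact_Icc.inter_right (isClosed_le continuous_const hcont)
  obtain ⟨σ, ⟨hσ, hσc⟩, hmin⟩ := hT.exists_isLeast
    ⟨1, ⟨zero_le_one, le_rfl⟩, by rw [S.g1, hgfy]; norm_num⟩
  obtain ⟨σ', hσ', hσ'c⟩ := intermediate_value_Icc hσ.1 hcont.continuousOn
    (show (1 / 2 : ℝ) ∈ Icc (g (γ y 0)) (g (γ y σ)) from ⟨by rw [S.g0]; exact hgy.le, hσc⟩)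
  have hσ'c' : g (γ y σ') = 1 / 2 := hσ'c
  have hσσ' : σ' = σ := le_antisymm hσ'.2 (hmin ⟨⟨hσ'.1, hσ'.2.trans hσ.2⟩, hσ'c'.ge⟩)
  rw [hσσ'] at hσ'c'
  have hσ0 : 0 ≠ σ := by
    intro h
    rw [← h, S.g0] at hσ'c'
    linarith
  have hU : ∀ r ∈ Icc 0 σ, γ y r ∈ ULim F Zn := by
    have hcl : IsClosed {r | γ y r ∈ ULim F Zn} := (ULim.isClosed Zn).preimage (S.gc y)
    have hsub : Ico 0 σ ⊆ {r | γ y r ∈ ULim F Zn} := by
      intro r hr
      refine hlscU r ⟨hr.1, hr.2.le.trans hσ.2⟩ ?_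
      by_contra hcon
      exact absurd (hmin ⟨⟨hr.1, hr.2.le.trans hσ.2⟩, not_lt.1 hcon⟩) (not_le.2 hr.2)
    have := closure_minimal hsub hcl
    rw [closure_Ico hσ0] at this
    exact this
  refine ⟨σ, ⟨hσ, fun r hr => hU_near _ (hU r hr)⟩, ?_, fun r hr => hU_sub (hU r hr)⟩
  have := cc_level G S hc (hU_sub (hU σ ⟨hσ.1, le_rfl⟩))
  linarith

/-- Claim A. -/
theorem claimA (G : Gate f γ δ Z ε g β) (S : Sys f γ δ) (hZc : IsClosed Z) (hZs : Sat γ δ Z)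
    (hmin : ∀ Z' ⊆ Z, IsClosed Z' → Z'.Nonempty → Sat γ δ Z' → Z' = Z) {c : ℝ}
    (hc : ∃ n : ℤ, c = n + 1 / 2) (hD : ∃ x ∈ Z, c ≤ β x) {y : K} (hy : y ∈ Z) (hyc : β y < c) :
    ∃ s, In γ (4 * δ) y s ∧ 0 < g (γ y s) ∧ g (γ y s) < 1 := by
  have hp := S.pos
  have hclZ : closure (CC γ δ Z β c) ⊆ Z := closure_minimal (cc_sub S hZs) hZc
  have hD' : (Z ∩ {x | c ≤ β x}) ∪ closure (CC γ δ Z β c) = Z := by
    refine hmin _ (union_subset inter_subset_left hclZ) ?_ ?_ ?_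
    · exact (hZc.inter (isClosed_le continuous_const G.bcont)).union isClosed_closure
    · obtain ⟨x, hx, hxc⟩ := hD
      exact ⟨x, Or.inl ⟨hx, hxc⟩⟩
    · intro x hx t ht
      have hxZ : x ∈ Z := by
        rcases hx with hx | hx
        · exact hx.1
        · exact hclZ hx
      have hmem : ∀ s₀ ∈ Icc 0 t, c ≤ β (γ x s₀) →
          γ x t ∈ (Z ∩ {x | c ≤ β x}) ∪ closure (CC γ δ Z β c) := by
        intro s₀ hs₀ h0
        rcases case1 G S hZs hc hxZ ht hs₀ h0 with h | h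
        · exact Or.inl ⟨hZs x hxZ t ht, h⟩
        · exact Or.inr (subset_closure h)
      by_cases hxc : c ≤ β x
      · exact hmem 0 ⟨le_rfl, ht.1.1⟩ (by rw [S.g0]; exact hxc)
      · rw [not_le] at hxc
        have hxC : x ∈ closure (CC γ δ Z β c) := by
          rcases hx with hx | hx
          · exact absurd hx.2 (not_le.2 hxc)
          · exact hx
        obtain ⟨s, hs1, hs2, hs3⟩ := case2 G S hc hxC hxc
        rcases le_total t s with h | h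
        · exact Or.inr (hs3 t ⟨ht.1.1, h⟩)
        · exact hmem s ⟨hs1.1.1, h⟩ hs2.ge
  have hyD : y ∈ (Z ∩ {x | c ≤ β x}) ∪ closure (CC γ δ Z β c) := by
    rw [hD']
    exact hy
  rcases hyD with h | h
  · exact absurd h.2 (not_le.2 hyc)
  · obtain ⟨s, hs1, hs2, hs3⟩ := case2 G S hc h hyc
    have hsZ : γ y s ∈ Z := hZs y hy s (hs1.mono (by linarith))
    obtain ⟨hm, -⟩ := G.mid_of_level S hc hsZ hs2
    exact ⟨s, hs1, hm.h0, hm.h1⟩

end Pool.Agent.Lib.MP_61a5b3_gt
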