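import Pool.Agent.Lib.MP_61a5b3_gt.ClaimA

set_option autoImplicit false

namespace Pool.Agent.Lib.MP_61a5b3_gt

open Set Metric Filter Topology
open Pool.Agent.Lib.MP_385b3e_gt

variable {K : Type*} [MetricSpace K] [CompactSpace K] [ConnectedSpace K]
variable {f : K → K} {γ : K → ℝ → K} {δ : ℝ} {Z : Set K} {ε : ℝ}

/-- The lift of the circle valued map attached to a gate. -/
theorem exists_gate_lift (S : Sys f γ δ) {g : K → ℝ} (hg : Continuous g)
    (hg01 : ∀ x, 0 ≤ g x ∧ g x ≤ 1) (hd : diam {x | 0 < g x ∧ g x < 1} < δ) :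
    ∃ β : K → ℝ, Continuous β ∧
      (∀ x, ¬ (0 < g x ∧ g x < 1 ∧ g (f x) = 0) → ∃ n : ℤ, β x - g x = n) ∧
      (∀ x, (0 < g x ∧ g x < 1 ∧ g (f x) = 0) → ∃ n : ℤ, β x = n) := by
  classical
  have hopen : ∀ x, 0 < g x → g x < 1 → g (f x) = 0 ∨ g (f x) = 1 := by
    intro x h0 h1
    have hgf := hg01 (f x)
    rcases eq_or_lt_of_le hgf.1 with h | h
    · exact Or.inl h.symm
    · rcases eq_or_lt_of_le hgf.2 with h' | h'
      · exact Or.inr h'
      · exfalso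
        have h2 : dist x (f x) ≤ diam {x | 0 < g x ∧ g x < 1} :=
          dist_le_diam (s := {x | 0 < g x ∧ g x < 1}) ⟨h0, h1⟩ ⟨h, h'⟩
        have h3 := S.far x
        have h6 := S.pos
        linarith
  let N : Set K := {x | 0 < g x ∧ g x < 1 ∧ g (f x) = 0}
  have hNopen : IsOpen N := by
    have : N = {x | 0 < g x} ∩ {x | g x < 1} ∩ {x | g (f x) < 1} := by
      ext x
      constructor
      · rintro ⟨h1, h2, h3⟩
        refine ⟨⟨h1, h2⟩, ?_⟩
        rw [mem_ofPred_eq, h3]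
        exact one_pos
      · rintro ⟨⟨h1, h2⟩, h3⟩
        refine ⟨h1, h2, ?_⟩
        rcases hopen x h1 h2 with h | h
        · exact h
        · exact absurd h (ne_of_lt h3)
    rw [this]
    exact ((isOpen_lt continuous_const hg).inter (isOpen_lt hg continuous_const)).inter
      (isOpen_lt (hg.comp S.fc) continuous_const)
  have hfront : ∀ x ∈ frontier {x | x ∈ N}, (0 : AddCircle (1 : ℝ)) = ((g x : ℝ) : AddCircle (1 : ℝ)) := by
    intro x hx
    have hx1 : x ∈ closure N := frontier_subset_closure hx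
    have hx2 : x ∉ N := by
      have : x ∈ frontier N := hx
      rw [hNopen.frontier_eq] at this
      exact this.2
    have hgfx : g (f x) = 0 := by
      have hcl : IsClosed {x | g (f x) = 0} := isClosed_eq (hg.comp S.fc) continuous_const
      exact closure_minimal (fun y hy => hy.2.2) hcl hx1
    have hgx := hg01 x
    rcases eq_or_lt_of_le hgx.1 with h | h
    · rw [← h, AddCircle.coe_zero]
    · rcases eq_or_lt_of_le hgx.2 with h' | h'
      · rw [h']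
        exact ((AddCircle.coe_eq_zero_iff (1 : ℝ)).2 ⟨1, by simp⟩).symm
      · exact absurd ⟨h, h', hgfx⟩ hx2
  have hθ : Continuous fun x => if x ∈ N then (0 : AddCircle (1 : ℝ)) else ((g x : ℝ) : AddCircle (1 : ℝ)) :=
    continuous_if hfront continuous_const.continuousOn
      (((AddCircle.continuous_mk' (1 : ℝ)).comp hg).continuousOn)
  obtain ⟨β, hβ, hlift⟩ := exists_lift S.tl hθ
  refine ⟨β, hβ, fun x hx => ?_, fun x hx => ?_⟩
  · have h1 := hlift x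
    rw [if_neg (show x ∉ N from hx)] at h1
    have h2 : ((β x - g x : ℝ) : AddCircle (1 : ℝ)) = 0 := by
      rw [AddCircle.coe_sub, h1, sub_self]
    obtain ⟨n, hn⟩ := (AddCircle.coe_eq_zero_iff (1 : ℝ)).1 h2
    exact ⟨n, by rw [← hn]; simp⟩
  · have h1 := hlift x
    rw [if_pos (show x ∈ N from hx)] at h1
    obtain ⟨n, hn⟩ := (AddCircle.coe_eq_zero_iff (1 : ℝ)).1 h1
    exact ⟨n, by rw [← hn]; simp⟩

/-- Claims A and B together. -/
theorem claimAB (S : Sys f γ δ) (hZc : IsClosed Z) (hZs : Sat γ δ Z)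
    (hmin : ∀ Z' ⊆ Z, IsClosed Z' → Z'.Nonempty → Sat γ δ Z' → Z' = Z) {p : K} {r : ℝ}
    (hr : r ≤ δ) (hε : 0 < ε) (hεδ : ε ≤ δ) (hFS : Z ∩ ball p r ⊆ FS γ δ ε) {z : K} (hz : z ∈ Z)
    {tw : ℝ} (htw : In γ (100 * δ) z tw) (hw : γ z tw ∈ ball p r) (hne : z ≠ γ z tw) :
    ∃ O : Set K, IsOpen O ∧ z ∈ O ∧ ∀ y ∈ Z ∩ O, ∃ s, In γ (4 * δ) y s ∧ γ y s ∈ ball p r := by
  have hp := S.pos
  obtain ⟨ρ₀, hρ₀, hball⟩ := Metric.isOpen_iff.1 isOpen_ball _ hw
  obtain ⟨ρ, hρ, hρ1, hρ2⟩ : ∃ ρ > 0, 2 * ρ ≤ ρ₀ ∧ 4 * ρ ≤ δ := by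
    refine ⟨min (ρ₀ / 2) (δ / 4), lt_min (by linarith) (by linarith), ?_, ?_⟩
    · have := min_le_left (ρ₀ / 2) (δ / 4)
      linarith
    · have := min_le_right (ρ₀ / 2) (δ / 4)
      linarith
  set w := γ z tw with hwdef
  have htw0 : 0 < tw := by
    rcases eq_or_lt_of_le htw.1.1 with h | h
    · exfalso
      apply hne
      rw [hwdef, ← h, S.g0]
    · exact h
  have hwZ : w ∈ Z := hZs z hz tw htw
  have hzw : dist z w ≤ 100 * δ := htw.2 tw ⟨htw0.le, le_rfl⟩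
  -- the point `tp` where the arc leaves the ball of radius `2 δ` around `w`
  have hcont : Continuous fun r => dist w (γ z r) := continuous_const.dist (S.gc z)
  have hT : IsCompact {r | r ∈ Icc tw 1 ∧ 2 * δ ≤ dist w (γ z r)} :=
    isCompact_Icc.inter_right (isClosed_le continuous_const hcont)
  obtain ⟨tp, ⟨htp, htpc⟩, hminp⟩ := hT.exists_isLeast ⟨1, ⟨htw.1.2, le_rfl⟩, by
    rw [S.g1]
    have h1 := S.far z
    have h2 := dist_triangle z w (f z)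
    linarith⟩
  have htp_lt : tw < tp := by
    rcases eq_or_lt_of_le htp.1 with h | h
    · exfalso
      rw [← h, ← hwdef, dist_self] at htpc
      linarith
    · exact h
  have htp_in : ∀ r ∈ Icc tw tp, dist w (γ z r) ≤ 2 * δ := by
    intro r hr
    rcases eq_or_lt_of_le hr.2 with h | h
    · -- at `tp` itself, by continuity
      obtain ⟨r', hr', hr'c⟩ := intermediate_value_Icc htp.1 hcont.continuousOn
        (show 2 * δ ∈ Icc (dist w (γ z tw)) (dist w (γ z tp)) from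
          ⟨by rw [← hwdef, dist_self]; linarith, htpc⟩)
      have hr'c' : dist w (γ z r') = 2 * δ := hr'c
      have h1 : r' = tp := le_antisymm hr'.2 (hminp ⟨⟨hr'.1, hr'.2.trans htp.2⟩, hr'c'.ge⟩)
      rw [h, ← h1, hr'c']
    · by_contra hcon
      rw [not_le] at hcon
      exact absurd (hminp ⟨⟨hr.1, hr.2.trans htp.2⟩, hcon.le⟩) (not_le.2 h)
  obtain ⟨η', hη', hη'2⟩ := Metric.continuousAt_iff.1 (S.gc z).continuousAt ρ hρ
  obtain ⟨η, hη, hη1, hη2, hη3⟩ : ∃ η > 0, η < η' ∧ 0 ≤ tw - η ∧ tw + η ≤ tp := by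
    refine ⟨min (η' / 2) (min tw (tp - tw)), ?_, ?_, ?_, ?_⟩
    · exact lt_min (half_pos hη') (lt_min htw0 (sub_pos.2 htp_lt))
    · exact (min_le_left _ _).trans_lt (half_lt_self hη')
    · have := (min_le_right (η' / 2) (min tw (tp - tw))).trans (min_le_left _ _)
      linarith
    · have := (min_le_right (η' / 2) (min tw (tp - tw))).trans (min_le_right _ _)
      linarith
  have hmidball : ∀ r ∈ Ioo (tw - η') (tw + η'), dist (γ z r) w < ρ := by
    intro r hr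
    refine hη'2 ?_
    rw [Real.dist_eq, abs_lt]
    exact ⟨by linarith [hr.1], by linarith [hr.2]⟩
  have hJ₁ : IsConnected (γ z '' Icc 0 (tw - η)) :=
    (isConnected_Icc hη2).image _ (S.gc z).continuousOn
  have hJ₂ : IsConnected (γ z '' Icc (tw + η) tp) :=
    (isConnected_Icc hη3).image _ (S.gc z).continuousOn
  have hd : Disjoint (γ z '' Icc 0 (tw - η)) (γ z '' Icc (tw + η) tp) := by
    rw [Set.disjoint_left]
    rintro _ ⟨a, ha, rfl⟩ ⟨b, hb, hab⟩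
    have h1 := ha.1
    have h2 := ha.2
    have h3 := hb.1
    have h4 := hb.2
    have h5 := htp.2
    have := S.gi z (show b ∈ Icc (0 : ℝ) 1 from ⟨by linarith, by linarith⟩)
      (show a ∈ Icc (0 : ℝ) 1 from ⟨h1, by linarith⟩) hab
    linarith
  obtain ⟨g, hg, hg01, hg0, hg1, hdiam⟩ := gate S.tl (S.closed_img z _ _) hJ₁
    (S.closed_img z _ _) hJ₂ hd (lt_min hε hρ)
  have hdε : diam {x | 0 < g x ∧ g x < 1} < ε := hdiam.trans_le (min_le_left _ _)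
  have hdρ : diam {x | 0 < g x ∧ g x < 1} < ρ := hdiam.trans_le (min_le_right _ _)
  have e2 : g (γ z (tw - η)) = 0 := hg0 _ ⟨_, ⟨hη2, le_rfl⟩, rfl⟩
  have e3 : g (γ z (tw + η)) = 1 := hg1 _ ⟨_, ⟨le_rfl, hη3⟩, rfl⟩
  have e4 : g (γ z tp) = 1 := hg1 _ ⟨_, ⟨hη3, le_rfl⟩, rfl⟩
  have e5 : g z = 0 := hg0 _ ⟨0, ⟨le_rfl, hη2⟩, S.g0 z⟩
  -- the gate lies in the ball
  have hVball : ∀ x, 0 < g x → g x < 1 → dist x w < 2 * ρ := by
    intro x h0 h1
    obtain ⟨z', ⟨a, ha, rfl⟩, hzg'⟩ := meets_gate hg (S.conn_img z (tw - η) (tw + η))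
      ⟨tw - η, ⟨le_rfl, by linarith⟩, rfl⟩ ⟨tw + η, ⟨by linarith, le_rfl⟩, rfl⟩ (c := 1 / 2)
      (by rw [e2]; norm_num) (by rw [e3]; norm_num)
    have h2 : dist x (γ z a) < ρ := (dist_le_diam (s := {x | 0 < g x ∧ g x < 1})
      ⟨h0, h1⟩ (by rw [mem_ofPred_eq, hzg']; norm_num)).trans_lt hdρ
    have h3 := hmidball a ⟨by linarith [ha.1], by linarith [ha.2]⟩
    linarith [dist_triangle x (γ z a) w]
  have hVp : ∀ x, 0 < g x → g x < 1 → x ∈ ball p r := by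
    intro x h0 h1
    refine hball ?_
    rw [mem_ball]
    linarith [hVball x h0 h1]
  obtain ⟨β, hβ, hi1, hi2⟩ := exists_gate_lift S hg hg01 (hdε.trans_le hεδ)
  have G : Gate f γ δ Z ε g β := ⟨hg, hβ, hg01, hdε, fun x hx h0 h1 => hFS ⟨hx, hVp x h0 h1⟩,
    hεδ, hi1, hi2⟩
  have hzin : ∀ r ∈ Icc 0 tp, dist z (γ z r) ≤ 102 * δ := by
    intro r hr
    rcases le_total r tw with h | h
    · have := htw.2 r ⟨hr.1, h⟩
      linarith
    · have h1 := htp_in r ⟨h, hr.2⟩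
      linarith [dist_triangle z w (γ z r)]
  have hIn : ∀ r ∈ Icc 0 tp, In γ (1000 * δ) z r := by
    intro r hr
    refine ⟨⟨hr.1, hr.2.trans htp.2⟩, fun s hs => ?_⟩
    have := hzin s ⟨hs.1, hs.2.trans hr.2⟩
    linarith
  have hJZ : ∀ r ∈ Icc 0 tp, γ z r ∈ Z := by
    intro r hr
    rcases le_total r tw with h | h
    · exact hZs z hz r (htw.mono_t ⟨hr.1, h⟩)
    · obtain ⟨t', ht', htt, hin⟩ := S.key_in (hIn tw ⟨htw0.le, htp_lt.le⟩) h
        (hr.2.trans htp.2) (fun a ha => (hIn r hr).2 a ⟨htw0.le.trans ha.1, ha.2⟩)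
      rw [← htt]
      refine hZs w hwZ t' ⟨ht', fun a ha => ?_⟩
      obtain ⟨b, hb, hbe⟩ := hin a ha
      rw [← hwdef] at hbe
      rw [← hbe]
      have := htp_in b ⟨hb.1, hb.2.trans hr.2⟩
      linarith
  -- the last passage of the middle level
  have hcontg : Continuous fun r => g (γ z r) := hg.comp (S.gc z)
  obtain ⟨t0, ht0, ht0c⟩ := intermediate_value_Icc (show tw - η ≤ tw + η by linarith)
    hcontg.continuousOn (show (1 / 2 : ℝ) ∈ Icc (g (γ z (tw - η))) (g (γ z (tw + η))) from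
      ⟨by rw [e2]; norm_num, by rw [e3]; norm_num⟩)
  have ht0c' : g (γ z t0) = 1 / 2 := ht0c
  have ht0tp : t0 ∈ Icc 0 tp := ⟨hη2.trans ht0.1, ht0.2.trans hη3⟩
  have hy0Z : γ z t0 ∈ Z := hJZ t0 ht0tp
  have hy0FS := G.fs (γ z t0) hy0Z (by rw [ht0c']; norm_num) (by rw [ht0c']; norm_num)
  have hy0w : dist (γ z t0) w < ρ := hmidball t0 ⟨by linarith [ht0.1], by linarith [ht0.2]⟩
  obtain ⟨ts, hts, htseq, htsin⟩ := S.key_in (hIn t0 ht0tp) ht0tp.2 htp.2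
    (fun a ha => (hIn tp ⟨htw0.le.trans htp_lt.le, le_rfl⟩).2 a ⟨ht0tp.1.trans ha.1, ha.2⟩)
  have hy0tp : δ < dist (γ z t0) (γ (γ z t0) ts) := by
    rw [htseq]
    have h1 : 2 * δ ≤ dist w (γ z tp) := htpc
    have h2 := dist_triangle w (γ z t0) (γ z tp)
    rw [dist_comm w (γ z t0)] at h2
    linarith
  have hfy0 : g (f (γ z t0)) = 1 := by
    rw [← e4, ← htseq, ← S.g1]
    refine G.g_const (S.conn_img (γ z t0) ts 1) ?_ ⟨1, ⟨hts.2, le_rfl⟩, rfl⟩
      ⟨ts, ⟨le_rfl, hts.2⟩, rfl⟩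
    rintro _ ⟨a, ha, rfl⟩ hV
    have h1 := hy0FS ts hts a ⟨hts.1.trans ha.1, ha.2⟩ ha.1 hy0tp
    have h2 : dist (γ z t0) (γ (γ z t0) a) ≤ diam {x | 0 < g x ∧ g x < 1} :=
      dist_le_diam (s := {x | 0 < g x ∧ g x < 1})
        (by rw [mem_ofPred_eq, ht0c']; norm_num) hV
    linarith
  have hfJ : ∀ a ∈ Icc 0 tp, g (f (γ z a)) = 1 := by
    intro a ha
    rw [← hfy0]
    refine G.g_const (S.conn_fimg z 0 tp) ?_ ⟨_, ⟨a, ha, rfl⟩, rfl⟩ ⟨_, ⟨t0, ht0tp, rfl⟩, rfl⟩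
    rintro _ ⟨_, ⟨b, hb, rfl⟩, rfl⟩ hV
    have h1 := hVball _ hV.1 hV.2
    have h2 := hzin b hb
    refine S.sep z (γ z b) _ (by linarith) ?_ rfl
    have h3 := dist_triangle z w (f (γ z b))
    rw [dist_comm w] at h3
    linarith
  have hconst : β (γ z tp) - g (γ z tp) = β z - g z := by
    refine G.b_const (S.conn_img z 0 tp) ?_ ⟨tp, ⟨htw0.le.trans htp_lt.le, le_rfl⟩, rfl⟩
      ⟨0, ⟨le_rfl, htw0.le.trans htp_lt.le⟩, S.g0 z⟩
    rintro _ ⟨a, ha, rfl⟩ ⟨-, -, h3⟩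
    rw [hfJ a ha] at h3
    exact one_ne_zero h3
  obtain ⟨n, hn⟩ := hi1 z (by rw [e5]; exact fun h => lt_irrefl _ h.1)
  have hc : ∃ m : ℤ, β z + 1 / 2 = m + 1 / 2 := ⟨n, by rw [e5, sub_zero] at hn; rw [hn]⟩
  refine ⟨{y | β y < β z + 1 / 2}, isOpen_lt hβ continuous_const, ?_, fun y hy => ?_⟩
  · rw [mem_ofPred_eq]
    linarith
  · obtain ⟨s, hs, h0, h1⟩ := claimA G S hZc hZs hmin hc
      ⟨γ z tp, hJZ tp ⟨htw0.le.trans htp_lt.le, le_rfl⟩, by linarith⟩ hy.1 hy.2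
    exact ⟨s, hs, hVp _ h0 h1⟩

end Pool.Agent.Lib.MP_61a5b3_gt
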