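import Pool.Agent.Lib.MP_61a5b3_gt.Base

set_option autoImplicit false

namespace Pool.Agent.Lib.MP_61a5b3_gt

open Set Metric Filter Topology
open Pool.Agent.Lib.MP_385b3e_gt

/-- Potentials on trees. -/
theorem exists_potential {V : Type*} [Finite V] {G : SimpleGraph V} (hG : G.IsTree)
    (c : V → V → ℤ) (hc : ∀ v w, G.Adj v w → c w v = - c v w) :
    ∃ n : V → ℤ, ∀ v w, G.Adj v w → n w - n v = c v w := by
  classical
  have key : ∀ (k : ℕ) (S : Set V) (n : V → ℤ), Sᶜ.ncard = k → S.Nonempty → ConnIn G S →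
      (∀ v ∈ S, ∀ w ∈ S, G.Adj v w → n w - n v = c v w) →
      ∃ n : V → ℤ, ∀ v w, G.Adj v w → n w - n v = c v w := by
    intro k
    induction k using Nat.strong_induction_on with
    | _ k ih =>
      intro S n hk hne hS hn
      by_cases hSu : S = univ
      · exact ⟨n, fun v w h => hn v (hSu ▸ mem_univ v) w (hSu ▸ mem_univ w) h⟩
      · obtain ⟨v, hv⟩ := (ne_univ_iff_exists_notMem S).1 hSu
        obtain ⟨u, hu⟩ := hne
        obtain ⟨p⟩ := hG.connected.preconnected u v
        obtain ⟨d, -, hd1, hd2⟩ := p.exists_boundary_dart S hu hv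
        set s' := d.fst with hs'
        set s := d.snd with hs
        have hadj : G.Adj s' s := d.adj
        have hlt : (insert s S)ᶜ.ncard < k := by
          rw [← hk]
          refine ncard_lt_ncard ?_ (toFinite _)
          refine ⟨compl_subset_compl.2 (subset_insert s S), fun h => ?_⟩
          exact h hd2 (mem_insert s S)
        refine ih _ hlt (insert s S) (Function.update n s (n s' + c s' s)) rfl
          ⟨s, mem_insert s S⟩ (connIn_insert hS hd1 hadj) ?_
        have hne : ∀ a ∈ S, a ≠ s := fun a ha h => hd2 (h ▸ ha)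
        rintro a (ha | ha) b (hb | hb) hab
        · exact absurd hab (by rw [ha, hb]; exact G.irrefl)
        · have : b = s' := unique_nbr hG.isAcyclic hS hd2 hb hd1 (ha ▸ hab) hadj.symm
          rw [ha, Function.update_self, Function.update_of_ne (hne b hb), this, hc s' s hadj]
          ring
        · have : a = s' := unique_nbr hG.isAcyclic hS hd2 ha hd1 (hb ▸ hab.symm) hadj.symm
          rw [hb, Function.update_self, Function.update_of_ne (hne a ha), this]
          ring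
        · rw [Function.update_of_ne (hne a ha), Function.update_of_ne (hne b hb)]
          exact hn a ha b hb hab
  obtain ⟨r⟩ := hG.connected.nonempty
  refine key _ {r} (fun _ => 0) rfl ⟨r, rfl⟩ ?_ ?_
  · rintro u rfl v rfl
    exact ⟨SimpleGraph.Walk.nil, fun w hw => by simpa using hw⟩
  · rintro v rfl w rfl h
    exact absurd h G.irrefl

variable {K : Type*} [MetricSpace K] [CompactSpace K]

/-- Local lifts. -/
theorem local_lift {θ : K → AddCircle (1 : ℝ)} (hθ : Continuous θ) (x : K) :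
    ∃ (O : Set K) (h : K → ℝ), IsOpen O ∧ x ∈ O ∧ ContinuousOn h O ∧
      (∀ y ∈ O, (h y : AddCircle (1 : ℝ)) = θ y) ∧ ∀ y ∈ O, ∀ y' ∈ O, |h y - h y'| < 1 / 2 := by
  haveI : Fact ((0 : ℝ) < 1) := ⟨one_pos⟩
  obtain ⟨r, hr⟩ : ∃ r : ℝ, (r : AddCircle (1 : ℝ)) = θ x := QuotientAddGroup.mk_surjective _
  let a : ℝ := r - 1 / 2
  have hmem : r ∈ Ico a (a + 1) := ⟨by simp only [a]; linarith, by simp only [a]; linarith⟩
  let h : K → ℝ := fun y => (AddCircle.equivIco 1 a (θ y) : ℝ)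
  have hhx : h x = r := by
    simp only [h]
    rw [← hr]
    exact AddCircle.equivIco_coe_of_mem hmem
  have hne : ((r : ℝ) : AddCircle (1 : ℝ)) ≠ (a : AddCircle (1 : ℝ)) := by
    intro hcon
    have h1 := AddCircle.equivIco_coe_of_mem (p := (1 : ℝ)) hmem
    have h2 := AddCircle.equivIco_coe_of_mem (p := (1 : ℝ)) (a := a) (y := a) ⟨le_rfl, by linarith⟩
    rw [hcon] at h1
    rw [h1] at h2
    simp only [a] at h2
    linarith
  have hcont : ∀ y, θ y ≠ (a : AddCircle (1 : ℝ)) → ContinuousAt h y := by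
    intro y hy
    exact continuousAt_subtype_val.comp
      ((AddCircle.continuousAt_equivIco 1 a hy).comp hθ.continuousAt)
  have hO₁ : IsOpen {y | θ y ≠ (a : AddCircle (1 : ℝ))} :=
    (isOpen_compl_singleton (x := (a : AddCircle (1 : ℝ)))).preimage hθ
  have hconOn : ContinuousOn h {y | θ y ≠ (a : AddCircle (1 : ℝ))} :=
    fun y hy => (hcont y hy).continuousWithinAt
  have hO := hconOn.isOpen_inter_preimage hO₁ (isOpen_ball (x := r) (ε := 1 / 4))
  refine ⟨_, h, hO, ⟨?_, ?_⟩, hconOn.mono inter_subset_left, fun y _ => ?_, fun y hy y' hy' => ?_⟩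
  · rw [mem_ofPred_eq, ← hr]
    exact hne
  · rw [mem_preimage, hhx]
    exact mem_ball_self (by norm_num)
  · exact AddCircle.coe_equivIco
  · have h1 : dist (h y) r < 1 / 4 := hy.2
    have h2 : dist (h y') r < 1 / 4 := hy'.2
    rw [← Real.dist_eq]
    have := dist_triangle (h y) r (h y')
    rw [dist_comm r] at this
    linarith

theorem exists_lift [ConnectedSpace K] (hT : TreeLike K) {θ : K → AddCircle (1 : ℝ)}
    (hθ : Continuous θ) : ∃ β : K → ℝ, Continuous β ∧ ∀ x, (β x : AddCircle (1 : ℝ)) = θ x := by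
  classical
  choose O h hO hxO hcont hlift hosc using fun x => local_lift hθ x
  obtain ⟨δ, hδ, hleb⟩ := lebesgue_number_lemma_of_metric (c := O) (isCompact_univ (X := K)) hO
    (fun x _ => mem_iUnion.2 ⟨x, hxO x⟩)
  obtain ⟨V, _, U, G, u1, u2, u3, hG, hadj, hne⟩ := tree_cover hT hδ
  have hUO : ∀ v, ∃ x, U v ⊆ O x := by
    intro v
    obtain ⟨y, hy⟩ := hne v
    obtain ⟨x, hx⟩ := hleb y (mem_univ y)
    exact ⟨x, fun z hz => hx (mem_ball.2 ((dist_le_diam hz hy).trans_lt (u2 v)))⟩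
  choose e he using hUO
  -- difference of two local lifts
  have hdiff : ∀ v w, G.Adj v w → ∃ n : ℤ, ∀ y ∈ U v ∩ U w, h (e v) y - h (e w) y = n := by
    intro v w hvw
    obtain ⟨-, y₀, hy₀v, hy₀w⟩ := (hadj v w).1 hvw
    have hint : ∀ y ∈ U v ∩ U w, ∃ n : ℤ, h (e v) y - h (e w) y = n := by
      rintro y ⟨hyv, hyw⟩
      have h1 : ((h (e v) y - h (e w) y : ℝ) : AddCircle (1 : ℝ)) = 0 := by
        rw [AddCircle.coe_sub, hlift _ _ (he v hyv), hlift _ _ (he w hyw), sub_self]
      obtain ⟨n, hn⟩ := (AddCircle.coe_eq_zero_iff (1 : ℝ)).1 h1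
      exact ⟨n, by rw [← hn]; simp⟩
    obtain ⟨n, hn⟩ := hint y₀ ⟨hy₀v, hy₀w⟩
    refine ⟨n, fun y hy => ?_⟩
    obtain ⟨n', hn'⟩ := hint y hy
    rw [hn']
    have h1 := hosc (e v) y (he v hy.1) y₀ (he v hy₀v)
    have h2 := hosc (e w) y (he w hy.2) y₀ (he w hy₀w)
    rw [abs_lt] at h1 h2
    have h3 : (n' : ℝ) - n < 1 := by rw [← hn, ← hn']; linarith
    have h4 : -1 < (n' : ℝ) - n := by rw [← hn, ← hn']; linarith
    have h5 : n' - n < 1 := by exact_mod_cast h3
    have h6 : -1 < n' - n := by exact_mod_cast h4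
    have h7 : n' = n := by omega
    rw [h7]
  let c : V → V → ℤ := fun v w => if hvw : G.Adj v w then (hdiff v w hvw).choose else 0
  have hc1 : ∀ v w, G.Adj v w → ∀ y ∈ U v ∩ U w, h (e v) y - h (e w) y = c v w := by
    intro v w hvw y hy
    have : c v w = (hdiff v w hvw).choose := dif_pos hvw
    rw [this]
    exact (hdiff v w hvw).choose_spec y hy
  have hc2 : ∀ v w, G.Adj v w → c w v = - c v w := by
    intro v w hvw
    obtain ⟨-, y₀, hy₀v, hy₀w⟩ := (hadj v w).1 hvw
    have h1 := hc1 v w hvw y₀ ⟨hy₀v, hy₀w⟩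
    have h2 := hc1 w v hvw.symm y₀ ⟨hy₀w, hy₀v⟩
    have h3 : (c w v : ℝ) = - (c v w : ℝ) := by rw [← h1, ← h2]; ring
    exact_mod_cast h3
  obtain ⟨n, hn⟩ := exists_potential hG c hc2
  have hind : ∀ x, ∃ v, x ∈ U v := fun x => mem_iUnion.1 (u3 ▸ mem_univ x : x ∈ ⋃ i, U i)
  choose κ hκ using hind
  let β : K → ℝ := fun x => h (e (κ x)) x + n (κ x)
  have hβ : ∀ v, ∀ x ∈ U v, β x = h (e v) x + n v := by
    intro v x hx
    by_cases hvx : v = κ x
    · rw [hvx]
    · have hvw : G.Adj v (κ x) := (hadj _ _).2 ⟨hvx, x, hx, hκ x⟩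
      have h1 := hc1 v (κ x) hvw x ⟨hx, hκ x⟩
      have h2 : (n (κ x) : ℝ) - n v = c v (κ x) := by exact_mod_cast hn v (κ x) hvw
      change h (e (κ x)) x + n (κ x) = _
      linarith
  refine ⟨β, ?_, fun x => ?_⟩
  · rw [continuous_iff_continuousAt]
    intro x
    have h1 : ContinuousAt (fun y => h (e (κ x)) y + (n (κ x) : ℝ)) x :=
      (((hcont (e (κ x))).continuousAt ((hO _).mem_nhds (he _ (hκ x)))).add continuousAt_const)
    refine h1.congr ?_
    filter_upwards [(u1 (κ x)).mem_nhds (hκ x)] with y hy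
    exact (hβ _ y hy).symm
  · change ((h (e (κ x)) x + (n (κ x) : ℝ) : ℝ) : AddCircle (1 : ℝ)) = θ x
    rw [AddCircle.coe_add, hlift _ _ (he _ (hκ x))]
    have : (((n (κ x) : ℤ) : ℝ) : AddCircle (1 : ℝ)) = 0 :=
      (AddCircle.coe_eq_zero_iff (1 : ℝ)).2 ⟨n (κ x), by simp⟩
    rw [this, add_zero]

end Pool.Agent.Lib.MP_61a5b3_gt
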