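import Pool.Agent.Lib.MP_61a5b3_gt.ClaimB

set_option autoImplicit false

namespace Pool.Agent.Lib.MP_61a5b3_gt

open Set Metric Filter Topology
open Pool.Agent.Lib.MP_385b3e_gt

variable {K : Type*} [MetricSpace K] [CompactSpace K] [ConnectedSpace K]
variable {f : K → K} {γ : K → ℝ → K} {δ : ℝ}

/-- Minimal saturated closed sets exist. -/
theorem exists_minimal_sat (γ : K → ℝ → K) (δ : ℝ) : ∃ Z : Set K, IsClosed Z ∧ Z.Nonempty ∧
    Sat γ δ Z ∧ ∀ Z' ⊆ Z, IsClosed Z' → Z'.Nonempty → Sat γ δ Z' → Z' = Z := by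
  obtain ⟨Z, hZ⟩ := zorn_superset {Z : Set K | IsClosed Z ∧ Z.Nonempty ∧ Sat γ δ Z} (by
    intro c hc hchain
    rcases c.eq_empty_or_nonempty with rfl | hne
    · exact ⟨univ, ⟨isClosed_univ, univ_nonempty, fun _ _ _ _ => mem_univ _⟩,
        fun s hs => absurd hs (notMem_empty s)⟩
    · refine ⟨⋂₀ c, ⟨isClosed_sInter fun s hs => (hc hs).1, ?_, fun y hy t ht s hs =>
        (hc hs).2.2 y (hy s hs) t ht⟩, fun s hs => sInter_subset_of_mem hs⟩
      haveI : Nonempty c := hne.to_subtype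
      refine IsCompact.nonempty_sInter_of_directed_nonempty_isCompact_isClosed ?_
        (fun s hs => (hc hs).2.1) (fun s hs => (hc hs).1.isCompact) (fun s hs => (hc hs).1)
      intro s hs t ht
      rcases hchain.total hs ht with h | h
      · exact ⟨s, hs, subset_rfl, h⟩
      · exact ⟨t, ht, h, subset_rfl⟩)
  exact ⟨Z, hZ.prop.1, hZ.prop.2.1, hZ.prop.2.2, fun Z' hsub h1 h2 h3 =>
    subset_antisymm hsub (hZ.le_of_le ⟨h1, h2, h3⟩ hsub)⟩

/-- Baire category. -/
theorem exists_ball (S : Sys f γ δ) {Z : Set K} (hZc : IsClosed Z) (hZne : Z.Nonempty) :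
    ∃ p ∈ Z, ∃ r > 0, r ≤ δ ∧ ∃ ε > 0, ε ≤ δ ∧ Z ∩ ball p r ⊆ FS γ δ ε := by
  haveI : CompactSpace Z := isCompact_iff_compactSpace.1 hZc.isCompact
  haveI : Nonempty Z := hZne.to_subtype
  obtain ⟨n, ⟨p, hpZ⟩, hp⟩ := nonempty_interior_of_iUnion_of_closed
    (f := fun n : ℕ => (Subtype.val ⁻¹' FS γ δ (1 / ((n : ℝ) + 1)) : Set Z))
    (fun n => (S.fs_closed _).preimage continuous_subtype_val) (by
      refine eq_univ_of_forall fun x => ?_
      obtain ⟨n, hn⟩ := S.fs_cover x.1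
      exact mem_iUnion.2 ⟨n, hn⟩)
  rw [mem_interior_iff_mem_nhds, Metric.mem_nhds_iff] at hp
  obtain ⟨r, hr, hball⟩ := hp
  have hpos : (0 : ℝ) < 1 / ((n : ℝ) + 1) := by positivity
  refine ⟨p, hpZ, min r δ, lt_min hr S.pos, min_le_right _ _, min (1 / ((n : ℝ) + 1)) δ,
    lt_min hpos S.pos, min_le_right _ _, ?_⟩
  rintro x ⟨hxZ, hx⟩ s hs t ht hst h
  have h1 : (⟨x, hxZ⟩ : Z) ∈ ball (⟨p, hpZ⟩ : Z) r := by
    rw [mem_ball, Subtype.dist_eq]
    exact (mem_ball.1 hx).trans_le (min_le_left _ _)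
  exact (min_le_left _ _).trans (hball h1 s hs t ht hst h)

/-- No system of this kind exists. -/
theorem no_sys (S : Sys f γ δ) : False := by
  have hδ := S.pos
  obtain ⟨Z, hZc, hZne, hZs, hmin⟩ := exists_minimal_sat γ δ
  obtain ⟨p, hpZ, r, hr, hrδ, ε, hε, hεδ, hFS⟩ := exists_ball S hZc hZne
  -- the basic lemma
  have hC : ∀ z ∈ Z, ∀ t, In γ (100 * δ) z t → γ z t ∈ ball p r →
      ∃ s, In γ (4 * δ) z s ∧ γ z s ∈ ball p r := by
    intro z hz t ht htb
    by_cases hne : z = γ z t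
    · exact ⟨0, S.in_zero (by linarith) z, by rw [S.g0, hne]; exact htb⟩
    · obtain ⟨O, -, hzO, h⟩ := claimAB S hZc hZs hmin hrδ hε hεδ hFS hz ht htb hne
      exact h z ⟨hz, hzO⟩
  have hC' : ∀ z ∈ Z, ∀ t, In γ (100 * δ) z t → γ z t ∈ ball p r → dist z p ≤ 5 * δ := by
    intro z hz t ht htb
    obtain ⟨s, hs, hsb⟩ := hC z hz t ht htb
    have h1 := hs.2 s ⟨hs.1.1, le_rfl⟩
    rw [mem_ball] at hsb
    have h2 := dist_triangle z (γ z s) p
    linarith
  let W : Set K := {z | z ∈ Z ∧ ∀ t, In γ (100 * δ) z t → γ z t ∉ ball p r}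
  have hWZ : W ⊆ Z := fun z hz => hz.1
  have hWc : IsClosed W := by
    refine isClosed_of_closure_subset fun z hz => ?_
    have hzZ : z ∈ Z := closure_minimal hWZ hZc hz
    refine ⟨hzZ, fun t ht htb => ?_⟩
    by_cases hne : z = γ z t
    · obtain ⟨y, hyb, hyW⟩ := _root_.mem_closure_iff.1 hz (ball p r) isOpen_ball
        (by rw [hne]; exact htb)
      refine hyW.2 0 (S.in_zero (by linarith) y) ?_
      rw [S.g0]
      exact hyb
    · obtain ⟨O, hO, hzO, h⟩ := claimAB S hZc hZs hmin hrδ hε hεδ hFS hzZ ht htb hne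
      obtain ⟨y, hyO, hyW⟩ := _root_.mem_closure_iff.1 hz O hO hzO
      obtain ⟨s, hs, hsb⟩ := h y ⟨hyW.1, hyO⟩
      exact hyW.2 s (hs.mono (by linarith)) hsb
  have hWne : W.Nonempty := by
    obtain ⟨t, ht, htd⟩ := S.exit (ρ := 100 * δ) (by linarith) (by linarith) p
    refine ⟨γ p t, hZs p hpZ t ht, fun s hs hsb => ?_⟩
    have := hC' _ (hZs p hpZ t ht) s hs hsb
    rw [dist_comm] at this
    linarith
  have hpW : p ∉ W := by
    intro h
    refine h.2 0 (S.in_zero (by linarith) p) ?_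
    rw [S.g0]
    exact mem_ball_self hr
  have hWs : Sat γ δ W := by
    intro z hz t' ht'
    have hzZ := hz.1
    have hz'Z : γ z t' ∈ Z := hZs z hzZ t' ht'
    refine ⟨hz'Z, fun t ht htb => ?_⟩
    obtain ⟨s, hs, hsb⟩ := hC _ hz'Z t ht htb
    have hz'p : dist (γ z t') p ≤ 5 * δ := hC' _ hz'Z t ht htb
    have hzz' := ht'.2 t' ⟨ht'.1.1, le_rfl⟩
    -- transfer to the arc from `z`
    obtain ⟨tv, htv, htve, htvin⟩ := S.key2_in (ht'.mono (by linarith)) hs.1 (fun a ha => by
      have h1 := hs.2 a ha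
      have h2 := dist_triangle z (γ z t') (γ (γ z t') a)
      linarith)
    have hnear : ∀ a ∈ Icc t' tv, dist (γ z a) p ≤ 9 * δ := by
      intro a ha
      obtain ⟨b, hb, hbe⟩ := htvin a ha
      have h1 := hs.2 b hb
      rw [hbe] at h1
      have h2 := dist_triangle (γ z a) (γ z t') p
      rw [dist_comm (γ z a) (γ z t')] at h2
      linarith
    have htv0 : 0 ≤ tv := ht'.1.1.trans htv.1
    have hnot : ¬ In γ (100 * δ) z tv := by
      intro h
      refine hz.2 tv h ?_
      rw [htve]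
      exact hsb
    have hex : ∃ a ∈ Icc 0 tv, 100 * δ < dist z (γ z a) := by
      by_contra hcon
      push Not at hcon
      exact hnot ⟨⟨htv0, htv.2⟩, hcon⟩
    obtain ⟨a, ha, had⟩ := hex
    have hat' : t' ≤ a := by
      by_contra hcon
      rw [not_le] at hcon
      exact absurd (ht'.2 a ⟨ha.1, hcon.le⟩) (not_le.2 had)
    have hzp : 91 * δ ≤ dist z p := by
      have h1 := hnear a ⟨hat', ha.2⟩
      have h2 := dist_triangle z p (γ z a)
      rw [dist_comm p] at h2
      linarith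
    have hzp2 : dist z p ≤ 105 * δ := by
      have := dist_triangle z (γ z t') p
      linarith
    -- the last point at distance `20 δ` from `p`
    have hcont : Continuous fun b => dist (γ z b) p := (S.gc z).dist continuous_const
    have hT : IsCompact {b | b ∈ Icc 0 t' ∧ 20 * δ ≤ dist (γ z b) p} :=
      isCompact_Icc.inter_right (isClosed_le continuous_const hcont)
    obtain ⟨τ, ⟨hτ, hτc⟩, hmax⟩ := hT.exists_isGreatest ⟨0, ⟨le_rfl, ht'.1.1⟩, by
      rw [S.g0]
      linarith⟩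
    obtain ⟨τ', hτ', hτ'c⟩ := intermediate_value_Icc' hτ.2 hcont.continuousOn
      (show 20 * δ ∈ Icc (dist (γ z t') p) (dist (γ z τ) p) from ⟨by linarith, hτc⟩)
    have hτ'c' : dist (γ z τ') p = 20 * δ := hτ'c
    have hττ' : τ' = τ := le_antisymm (hmax ⟨⟨hτ.1.trans hτ'.1, hτ'.2⟩, hτ'c'.ge⟩) hτ'.1
    rw [hττ'] at hτ'c'
    have hτin : In γ (100 * δ) z τ := ht'.mono_t hτ
    have hτZ : γ z τ ∈ Z := hZs z hzZ τ hτin
    have hnear2 : ∀ b ∈ Icc τ tv, dist (γ z b) p ≤ 20 * δ := by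
      intro b hb
      rcases le_total t' b with h | h
      · have := hnear b ⟨h, hb.2⟩
        linarith
      · by_contra hcon
        rw [not_le] at hcon
        have h1 : b ≤ τ := hmax ⟨⟨hτ.1.trans hb.1, h⟩, hcon.le⟩
        have h2 : b = τ := le_antisymm h1 hb.1
        rw [h2, hτ'c'] at hcon
        exact lt_irrefl _ hcon
    obtain ⟨t₁, ht₁, ht₁e, ht₁in⟩ := S.key_in (hτin.mono (by linarith)) (hτ.2.trans htv.1) htv.2
      (fun b hb => by
        have h1 := hnear2 b hb
        have h2 := dist_triangle z p (γ z b)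
        rw [dist_comm p] at h2
        linarith)
    have hin₁ : In γ (100 * δ) (γ z τ) t₁ := by
      refine ⟨ht₁, fun b hb => ?_⟩
      obtain ⟨b', hb', hb'e⟩ := ht₁in b hb
      rw [← hb'e]
      have h1 := hnear2 b' hb'
      have h2 := dist_triangle (γ z τ) p (γ z b')
      rw [dist_comm p] at h2
      linarith
    have := hC' _ hτZ t₁ hin₁ (by rw [ht₁e, htve]; exact hsb)
    rw [hτ'c'] at this
    linarith
  exact hpW (by rw [hmin W hWZ hWc hWne hWs]; exact hpZ)

/-- The fixed point theorem. -/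
theorem main (hT : TreeLike K) {f : K → K} (hf : Continuous f)
    (harc : ∀ x : K, f x = x ∨ ∃ γ : unitInterval → K, Continuous γ ∧ Function.Injective γ ∧
      γ 0 = x ∧ γ 1 = f x) : ∃ x, f x = x := by
  by_contra hcon
  push Not at hcon
  have harc' : ∀ x : K, ∃ γ : unitInterval → K, Continuous γ ∧ Function.Injective γ ∧
      γ 0 = x ∧ γ 1 = f x := fun x => (harc x).resolve_left (hcon x)
  choose γ₀ h1 h2 h3 h4 using harc'
  let γ : K → ℝ → K := fun x t => γ₀ x (projIcc 0 1 zero_le_one t)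
  -- positive displacement
  have hcd : Continuous fun x => dist x (f x) := continuous_id.dist hf
  obtain ⟨x₀, -, hx₀⟩ := (isCompact_univ (X := K)).exists_isMinOn univ_nonempty hcd.continuousOn
  have hpos : 0 < dist x₀ (f x₀) := dist_pos.2 (hcon x₀).symm
  have hmin : ∀ x, dist x₀ (f x₀) ≤ dist x (f x) := fun x => hx₀ (mem_univ x)
  set e := dist x₀ (f x₀) with he
  have huc : UniformContinuous f := CompactSpace.uniformContinuous_of_continuous hf
  obtain ⟨η, hη, huc'⟩ := Metric.uniformContinuous_iff.1 huc (e / 2) (half_pos hpos)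
  have hδ : 0 < min (η / 2000) (e / 4000) := lt_min (by linarith) (by linarith)
  refine no_sys (f := f) (γ := γ) (δ := min (η / 2000) (e / 4000)) ⟨hT, hf, fun x => ?_, fun x => ?_,
    fun x => ?_, fun x => ?_, hδ, fun x y z hxy hxz hyz => ?_⟩
  · exact (h1 x).comp continuous_projIcc
  · intro s hs t ht hst
    have := h2 x hst
    rw [projIcc_of_mem _ hs, projIcc_of_mem _ ht] at this
    exact Subtype.ext_iff.1 this
  · change γ₀ x (projIcc 0 1 zero_le_one 0) = x
    rw [projIcc_left]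
    exact h3 x
  · change γ₀ x (projIcc 0 1 zero_le_one 1) = f x
    rw [projIcc_right]
    exact h4 x
  · have a1 := min_le_left (η / 2000) (e / 4000)
    have a2 := min_le_right (η / 2000) (e / 4000)
    have a3 : dist (f x) (f y) < e / 2 := huc' (by linarith)
    have a4 := hmin x
    have a5 := dist_triangle x z (f x)
    rw [← hyz, dist_comm (f y)] at a5
    rw [← hyz] at hxz
    linarith

end Pool.Agent.Lib.MP_61a5b3_gt
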