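import Pool.Agent.Lib.MP_61a5b3_gt.Lift

set_option autoImplicit false

namespace Pool.Agent.Lib.MP_61a5b3_gt

open Set Metric Filter Topology
open Pool.Agent.Lib.MP_385b3e_gt

variable {K : Type*} [MetricSpace K] [CompactSpace K]

/-- A map without fixed points together with arcs from each point to its image. -/
structure Sys (f : K → K) (γ : K → ℝ → K) (δ : ℝ) : Prop where
  tl : TreeLike K
  fc : Continuous f
  gc : ∀ x, Continuous (γ x)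
  gi : ∀ x, InjOn (γ x) (Icc 0 1)
  g0 : ∀ x, γ x 0 = x
  g1 : ∀ x, γ x 1 = f x
  pos : 0 < δ
  sep : ∀ x y z, dist x y ≤ 1000 * δ → dist x z ≤ 1000 * δ → f y ≠ z

/-- The arc from `y` to `γ y t` stays in the closed ball of radius `ρ`. -/
def In (γ : K → ℝ → K) (ρ : ℝ) (y : K) (t : ℝ) : Prop :=
  t ∈ Icc (0 : ℝ) 1 ∧ ∀ s ∈ Icc 0 t, dist y (γ y s) ≤ ρ

/-- Saturated sets. -/
def Sat (γ : K → ℝ → K) (δ : ℝ) (Z : Set K) : Prop :=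
  ∀ y ∈ Z, ∀ t, In γ (100 * δ) y t → γ y t ∈ Z

/-- Points `y` such that the arc does not come back near `y`. -/
def FS (γ : K → ℝ → K) (δ ε : ℝ) : Set K :=
  {y | ∀ s ∈ Icc (0 : ℝ) 1, ∀ t ∈ Icc (0 : ℝ) 1, s ≤ t → δ < dist y (γ y s) →
    ε ≤ dist y (γ y t)}

section

variable {f : K → K} {γ : K → ℝ → K} {δ : ℝ}

omit [CompactSpace K] in
theorem In.mono_t {ρ : ℝ} {y : K} {t s : ℝ} (h : In γ ρ y t) (hs : s ∈ Icc 0 t) : In γ ρ y s :=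
  ⟨⟨hs.1, hs.2.trans h.1.2⟩, fun r hr => h.2 r ⟨hr.1, hr.2.trans hs.2⟩⟩

omit [CompactSpace K] in
theorem In.mono {ρ ρ' : ℝ} {y : K} {t : ℝ} (h : In γ ρ y t) (hρ : ρ ≤ ρ') : In γ ρ' y t :=
  ⟨h.1, fun r hr => (h.2 r hr).trans hρ⟩

theorem Sys.in_zero (S : Sys f γ δ) {ρ : ℝ} (hρ : 0 ≤ ρ) (y : K) : In γ ρ y 0 := by
  refine ⟨⟨le_rfl, zero_le_one⟩, fun s hs => ?_⟩
  have : s = 0 := le_antisymm hs.2 hs.1
  rw [this, S.g0, dist_self]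
  exact hρ

theorem Sys.far (S : Sys f γ δ) (y : K) : 1000 * δ < dist y (f y) := by
  by_contra h
  have hp := S.pos
  exact S.sep y y (f y) (by rw [dist_self]; linarith) (not_lt.1 h) rfl

theorem Sys.exit (S : Sys f γ δ) {ρ : ℝ} (hρ0 : 0 ≤ ρ) (hρ : ρ ≤ 1000 * δ) (y : K) :
    ∃ t, In γ ρ y t ∧ dist y (γ y t) = ρ := by
  have hc : Continuous fun t => dist y (γ y t) := continuous_const.dist (S.gc y)
  have hT : IsCompact {t | t ∈ Icc (0 : ℝ) 1 ∧ ρ ≤ dist y (γ y t)} :=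
    isCompact_Icc.inter_right (isClosed_le continuous_const hc)
  have h1 : (1 : ℝ) ∈ {t | t ∈ Icc (0 : ℝ) 1 ∧ ρ ≤ dist y (γ y t)} := by
    refine ⟨⟨zero_le_one, le_rfl⟩, ?_⟩
    rw [S.g1]
    exact hρ.trans (S.far y).le
  obtain ⟨t, ⟨ht, htρ⟩, hmin⟩ := hT.exists_isLeast ⟨1, h1⟩
  obtain ⟨r, hr, hrρ⟩ := intermediate_value_Icc ht.1 hc.continuousOn
    (show ρ ∈ Icc (dist y (γ y 0)) (dist y (γ y t)) from ⟨by rw [S.g0, dist_self]; exact hρ0, htρ⟩)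
  have hrt : r = t := le_antisymm hr.2 (hmin ⟨⟨hr.1, hr.2.trans ht.2⟩, hrρ.ge⟩)
  refine ⟨t, ⟨ht, fun s hs => ?_⟩, hrt ▸ hrρ⟩
  by_contra h
  rw [not_le] at h
  have h2 : t ≤ s := hmin ⟨⟨hs.1, hs.2.trans ht.2⟩, h.le⟩
  have h3 : s = t := le_antisymm hs.2 h2
  rw [h3, ← hrt] at h
  exact lt_irrefl _ (h.trans_eq hrρ)

variable [ConnectedSpace K]

/-- Arc property for `γ y`. -/
theorem Sys.sub (S : Sys f γ δ) {y : K} {s t : ℝ} (hs : 0 ≤ s) (ht : t ≤ 1) {L : Set K}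
    (hL : IsClosed L) (hLc : IsPreconnected L) (h1 : γ y s ∈ L) (h2 : γ y t ∈ L) {c : ℝ}
    (hc : c ∈ Icc s t) : γ y c ∈ L :=
  arc_sub S.tl (S.gc y) ((S.gi y).mono (Icc_subset_Icc hs ht)) hL hLc h1 h2 hc

theorem Sys.closed_img (S : Sys f γ δ) (y : K) (s t : ℝ) : IsClosed (γ y '' Icc s t) :=
  (isCompact_Icc.image (S.gc y)).isClosed

theorem Sys.conn_img (S : Sys f γ δ) (y : K) (s t : ℝ) : IsPreconnected (γ y '' Icc s t) :=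
  isPreconnected_Icc.image _ (S.gc y).continuousOn

theorem Sys.closed_fimg (S : Sys f γ δ) (y : K) (s t : ℝ) : IsClosed (f '' (γ y '' Icc s t)) :=
  ((isCompact_Icc.image (S.gc y)).image S.fc).isClosed

theorem Sys.conn_fimg (S : Sys f γ δ) (y : K) (s t : ℝ) : IsPreconnected (f '' (γ y '' Icc s t)) :=
  (S.conn_img y s t).image _ S.fc.continuousOn

/-- Near `y` the arc from `y` is contained in the arc from `γ y s` (after `s`). -/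
theorem Sys.key (S : Sys f γ δ) {y : K} {s t : ℝ} (hs : In γ (1000 * δ) y s) (ht : t ∈ Icc s 1)
    (hd : dist y (γ y t) ≤ 1000 * δ) : γ y t ∈ γ (γ y s) '' Icc 0 1 := by
  have hL : IsPreconnected (γ (γ y s) '' Icc 0 1 ∪ f '' (γ y '' Icc 0 s)) := by
    refine IsPreconnected.union (f (γ y s)) ?_ ?_ (S.conn_img _ _ _) (S.conn_fimg _ _ _)
    · exact ⟨1, ⟨zero_le_one, le_rfl⟩, S.g1 _⟩
    · exact ⟨_, ⟨s, ⟨hs.1.1, le_rfl⟩, rfl⟩, rfl⟩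
  have h := S.sub (y := y) hs.1.1 (le_refl 1) ((S.closed_img _ _ _).union (S.closed_fimg _ _ _)) hL
    (Or.inl ⟨0, ⟨le_rfl, zero_le_one⟩, S.g0 _⟩)
    (Or.inr ⟨y, ⟨0, ⟨le_rfl, hs.1.1⟩, S.g0 y⟩, (S.g1 y).symm⟩) ht
  rcases h with h | ⟨_, ⟨r, hr, rfl⟩, h⟩
  · exact h
  · exact absurd h (S.sep y _ _ (hs.2 r hr) hd)

/-- Near `y` the arc from `γ y s` is contained in the arc from `y`. -/
theorem Sys.key2 (S : Sys f γ δ) {y : K} {s t : ℝ} (hs : In γ (1000 * δ) y s)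
    (ht : t ∈ Icc (0 : ℝ) 1) (hd : dist y (γ (γ y s) t) ≤ 1000 * δ) :
    γ (γ y s) t ∈ γ y '' Icc s 1 := by
  have hL : IsPreconnected (γ y '' Icc s 1 ∪ f '' (γ y '' Icc 0 s)) := by
    refine IsPreconnected.union (f y) ?_ ?_ (S.conn_img _ _ _) (S.conn_fimg _ _ _)
    · exact ⟨1, ⟨hs.1.2, le_rfl⟩, S.g1 _⟩
    · exact ⟨y, ⟨0, ⟨le_rfl, hs.1.1⟩, S.g0 y⟩, rfl⟩
  have h := S.sub (y := γ y s) (le_refl 0) (le_refl 1)
    ((S.closed_img _ _ _).union (S.closed_fimg _ _ _)) hL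
    (Or.inl ⟨s, ⟨le_rfl, hs.1.2⟩, (S.g0 _).symm⟩)
    (Or.inr ⟨γ y s, ⟨s, ⟨hs.1.1, le_rfl⟩, rfl⟩, (S.g1 _).symm⟩) ht
  rcases h with h | ⟨_, ⟨r, hr, rfl⟩, h⟩
  · exact h
  · exact absurd h (S.sep y _ _ (hs.2 r hr) hd)

theorem Sys.key_in (S : Sys f γ δ) {y : K} {s t : ℝ} (hs : In γ (1000 * δ) y s) (hst : s ≤ t)
    (ht1 : t ≤ 1) (hd : ∀ r ∈ Icc s t, dist y (γ y r) ≤ 1000 * δ) :
    ∃ t' ∈ Icc (0 : ℝ) 1, γ (γ y s) t' = γ y t ∧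
      ∀ r ∈ Icc 0 t', γ (γ y s) r ∈ γ y '' Icc s t := by
  obtain ⟨t', ht', h⟩ := S.key hs ⟨hst, ht1⟩ (hd t ⟨hst, le_rfl⟩)
  refine ⟨t', ht', h, fun r hr => ?_⟩
  refine S.sub (le_refl 0) ht'.2 (S.closed_img y s t) (S.conn_img y s t) ?_ ?_ hr
  · exact ⟨s, ⟨le_rfl, hst⟩, (S.g0 _).symm⟩
  · exact ⟨t, ⟨hst, le_rfl⟩, h.symm⟩

theorem Sys.key2_in (S : Sys f γ δ) {y : K} {s t : ℝ} (hs : In γ (1000 * δ) y s)
    (ht : t ∈ Icc (0 : ℝ) 1) (hd : ∀ r ∈ Icc 0 t, dist y (γ (γ y s) r) ≤ 1000 * δ) :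
    ∃ t' ∈ Icc s 1, γ y t' = γ (γ y s) t ∧ ∀ r ∈ Icc s t', γ y r ∈ γ (γ y s) '' Icc 0 t := by
  obtain ⟨t', ht', h⟩ := S.key2 hs ht (hd t ⟨ht.1, le_rfl⟩)
  refine ⟨t', ht', h, fun r hr => ?_⟩
  refine S.sub hs.1.1 ht'.2 (S.closed_img _ 0 t) (S.conn_img _ 0 t) ?_ ?_ hr
  · exact ⟨0, ⟨le_rfl, ht.1⟩, S.g0 _⟩
  · exact ⟨t, ⟨ht.1, le_rfl⟩, h.symm⟩

/-- Lower semicontinuity of arcs. -/
theorem Sys.lsc (S : Sys f γ δ) {F : Ultrafilter ℕ} (hF : (F : Filter ℕ) ≤ atTop) {y : ℕ → K}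
    {y₀ : K} (hy : Tendsto y F (𝓝 y₀)) {t : ℕ → ℝ} (ht : ∀ n, t n ∈ Icc (0 : ℝ) 1) {t₀ : ℝ}
    (ht₀ : t₀ ∈ Icc (0 : ℝ) 1) (hz : Tendsto (fun n => γ (y n) (t n)) F (𝓝 (γ y₀ t₀))) {s : ℝ}
    (hs : s ∈ Icc 0 t₀) : γ y₀ s ∈ ULim F (fun n => γ (y n) '' Icc 0 (t n)) := by
  refine S.sub (le_refl 0) ht₀.2 (ULim.isClosed _) (ulim_preconnected hF fun n =>
    S.conn_img _ _ _) ?_ ?_ hs
  · rw [S.g0]
    exact mem_ulim_of_tendsto (z := y) (fun n => ⟨0, ⟨le_rfl, (ht n).1⟩, S.g0 _⟩) hy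
  · exact mem_ulim_of_tendsto (z := fun n => γ (y n) (t n))
      (fun n => ⟨t n, ⟨(ht n).1, le_rfl⟩, rfl⟩) hz

theorem exists_approx {F : Ultrafilter ℕ} {Z : ℕ → Set K} (hZ : ∀ n, IsCompact (Z n))
    (hne : ∀ n, (Z n).Nonempty) {x : K} (hx : x ∈ ULim F Z) :
    ∃ z : ℕ → K, (∀ n, z n ∈ Z n) ∧ Tendsto z F (𝓝 x) := by
  have : ∀ n, ∃ z ∈ Z n, ∀ w ∈ Z n, dist z x ≤ dist w x := fun n =>
    (hZ n).exists_isMinOn (hne n) (continuous_id.dist continuous_const).continuousOn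
  choose z hz hmin using this
  refine ⟨z, hz, ?_⟩
  rw [Metric.tendsto_nhds]
  intro r hr
  filter_upwards [hx r hr] with n hn
  obtain ⟨w, hw, hwZ⟩ := hn
  exact (hmin n w hwZ).trans_lt hw

theorem Sys.fs_closed (S : Sys f γ δ) (ε : ℝ) : IsClosed (FS γ δ ε) := by
  refine isClosed_of_closure_subset fun y₀ hy₀ => ?_
  obtain ⟨y, hy, hlim⟩ := mem_closure_iff_seq_limit.1 hy₀
  intro s hs t ht hst hδ
  by_contra hcon
  rw [not_le] at hcon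
  let F : Ultrafilter ℕ := hyperfilter ℕ
  have hF : (F : Filter ℕ) ≤ atTop := Nat.hyperfilter_le_atTop
  have hyF : Tendsto y F (𝓝 y₀) := hlim.mono_left hF
  have h1 : γ y₀ t ∈ ULim F (fun n => γ (y n) '' Icc 0 1) := by
    refine S.lsc hF hyF (t := fun _ => 1) (fun n => ⟨zero_le_one, le_rfl⟩) (t₀ := 1)
      ⟨zero_le_one, le_rfl⟩ ?_ ht
    simp only [S.g1]
    exact (S.fc.tendsto y₀).comp hyF
  obtain ⟨z, hz, hzlim⟩ := exists_approx (fun n => isCompact_Icc.image (S.gc (y n)))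
    (fun n => ⟨_, 0, ⟨le_rfl, zero_le_one⟩, rfl⟩) h1
  choose τ hτ hτz using hz
  have h2 : γ y₀ s ∈ ULim F (fun n => γ (y n) '' Icc 0 (τ n)) := by
    refine S.lsc hF hyF hτ ht ?_ ⟨hs.1, hst⟩
    simp only [hτz]
    exact hzlim
  let r : ℝ := min ((dist y₀ (γ y₀ s) - δ) / 3) ((ε - dist y₀ (γ y₀ t)) / 3)
  have hr : 0 < r := lt_min (by linarith) (by linarith)
  have hr1 : r ≤ (dist y₀ (γ y₀ s) - δ) / 3 := min_le_left _ _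
  have hr2 : r ≤ (ε - dist y₀ (γ y₀ t)) / 3 := min_le_right _ _
  obtain ⟨n, ⟨h3, h4⟩, w, hw, σ, hσ, rfl⟩ := (((hyF.eventually (ball_mem_nhds _ hr)).and
    (hzlim.eventually (ball_mem_nhds _ hr))).and (h2 r hr)).exists
  have h3' : dist (y n) y₀ < r := h3
  have h4' : dist (z n) (γ y₀ t) < r := h4
  rw [mem_ball] at hw
  have h5 := hy n σ ⟨hσ.1, hσ.2.trans (hτ n).2⟩ (τ n) (hτ n) hσ.2 (by
    have := dist_triangle4 y₀ (y n) (γ (y n) σ) (γ y₀ s)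
    rw [dist_comm y₀ (y n)] at this
    linarith)
  rw [hτz n] at h5
  have := dist_triangle4 (y n) y₀ (γ y₀ t) (z n)
  rw [dist_comm (γ y₀ t) (z n)] at this
  linarith

theorem Sys.fs_cover (S : Sys f γ δ) (y : K) : ∃ n : ℕ, y ∈ FS γ δ (1 / (n + 1)) := by
  -- times after leaving the ball
  have hc : Continuous fun t => dist y (γ y t) := continuous_const.dist (S.gc y)
  by_cases hex : ∃ s ∈ Icc (0 : ℝ) 1, δ ≤ dist y (γ y s)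
  swap
  · refine ⟨0, fun s hs t _ _ h => ?_⟩
    exact absurd ⟨s, hs, h.le⟩ hex
  · have hT : IsCompact {t | t ∈ Icc (0 : ℝ) 1 ∧ δ ≤ dist y (γ y t)} :=
      isCompact_Icc.inter_right (isClosed_le continuous_const hc)
    obtain ⟨t₁, ⟨ht₁, ht₁δ⟩, hmin⟩ := hT.exists_isLeast hex
    obtain ⟨t₂, ht₂, ht₂min⟩ := (isCompact_Icc (a := t₁) (b := 1)).exists_isMinOn
      ⟨t₁, le_rfl, ht₁.2⟩ hc.continuousOn
    have ht₁0 : 0 < t₁ := by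
      rcases eq_or_lt_of_le ht₁.1 with h | h
      · exfalso
        rw [← h, S.g0, dist_self] at ht₁δ
        exact absurd S.pos (not_lt.2 ht₁δ)
      · exact h
    have hpos : 0 < dist y (γ y t₂) := by
      rw [dist_pos]
      intro h
      have h1 : γ y 0 = γ y t₂ := by rw [S.g0]; exact h
      have h2 := S.gi y ⟨le_rfl, zero_le_one⟩ ⟨ht₁0.le.trans ht₂.1, ht₂.2⟩ h1
      linarith [ht₂.1]
    obtain ⟨n, hn⟩ := exists_nat_one_div_lt hpos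
    refine ⟨n, fun s hs t ht hst h => ?_⟩
    have h1 : t₁ ≤ s := hmin ⟨hs, h.le⟩
    exact hn.le.trans (ht₂min ⟨h1.trans hst, ht.2⟩)

end

end Pool.Agent.Lib.MP_61a5b3_gt
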